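import Pool.Graph.R_pool_sql_team_seeded_f72693b1.W492.PC.Fin

/-!
# The t-structure defined by a system of objects concentrated in one degree
-/

set_option linter.unusedSectionVars false
set_option linter.style.haveILetI false

open CategoryTheory Limits MonoidalCategory Triangulated Pretriangulated ZeroObject

namespace Pool.Agent.H937.AS

open Pool.Agent.W492.TS

universe v u v' u' w

section
variable {T : Type u} [Category.{v} T] [HasZeroObject T] [HasShift T ℤ] [Preadditive T]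
  [∀ n : ℤ, (shiftFunctor T n).Additive] [Pretriangulated T] [IsTriangulated T]
  {𝒜 : ℤ → ObjectProperty T}

/-- iterated extensions of objects of degrees `≤ k`. -/
def GLE (𝒜 : ℤ → ObjectProperty T) (k : ℤ) : ObjectProperty T := fun M =>
  ∃ l : List ℤ, (∀ x ∈ l, x ≤ k) ∧ Filt 𝒜 l M

/-- iterated extensions of objects of degrees `≥ k`. -/
def GGE (𝒜 : ℤ → ObjectProperty T) (k : ℤ) : ObjectProperty T := fun M =>
  ∃ l : List ℤ, (∀ x ∈ l, k ≤ x) ∧ Filt 𝒜 l M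

/-- the assumptions on the objects concentrated in one degree. -/
structure ASys (𝒜 : ℤ → ObjectProperty T) : Prop where
  shift : ∀ (n a n' : ℤ) (X : T), a + n' = n → 𝒜 n X → 𝒜 n' (X⟦a⟧)
  orth : ∀ (n m : ℤ), n < m → ∀ (X Y : T), 𝒜 n X → 𝒜 m Y → ∀ f : X ⟶ Y, f = 0
  swap : Swap 𝒜
  gen : ∀ M : T, ∃ l, Filt 𝒜 l M

/-- a property closed under extensions. -/
theorem hom_zero_of_filt {l l' : List ℤ} {X Y : T}
    (h : ∀ n ∈ l, ∀ m ∈ l', ∀ X Y, 𝒜 n X → 𝒜 m Y → ∀ f : X ⟶ Y, f = 0)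
    (hX : Filt 𝒜 l X) (hY : Filt 𝒜 l' Y) (f : X ⟶ Y) : f = 0 := by
  let P : ObjectProperty T := fun X => ∀ f : X ⟶ Y, f = 0
  refine Filt.of_forall (P := P) ?_ ?_ ?_ hX f
  · intro X hX f
    exact hX.eq_of_src _ _
  · intro X Y' Z f g h hT hX hZ y
    obtain ⟨z, hz⟩ := Triangle.yoneda_exact₂ _ hT y (hX _)
    rw [hz, hZ z]
    exact comp_zero
  · intro n hn X hX f
    let Q : ObjectProperty T := fun Y => ∀ f : X ⟶ Y, f = 0
    refine Filt.of_forall (P := Q) ?_ ?_ ?_ hY f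
    · intro X hX f
      exact hX.eq_of_tgt _ _
    · intro X Y' Z f g h hT hX hZ y
      obtain ⟨z, hz⟩ := Triangle.coyoneda_exact₂ _ hT y (hZ _)
      rw [hz, hX z]
      exact zero_comp
    · intro m hm Y hY f
      exact h n hn m hm X Y hX hY f

theorem ASys.hom_zero (h : ASys 𝒜) {k : ℤ} {X Y : T} (hX : GLE 𝒜 k X) (hY : GGE 𝒜 (k + 1) Y)
    (f : X ⟶ Y) : f = 0 := by
  obtain ⟨l, hl, hX⟩ := hX
  obtain ⟨l', hl', hY⟩ := hY
  refine hom_zero_of_filt (fun n hn m hm X Y hX hY => h.orth n m ?_ X Y hX hY) hX hY f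
  have h1 := hl n hn
  have h2 := hl' m hm
  omega

theorem GLE.of_iso {k : ℤ} {M N : T} (e : M ≅ N) (hM : GLE 𝒜 k M) : GLE 𝒜 k N := by
  obtain ⟨l, hl, hM⟩ := hM
  exact ⟨l, hl, hM.of_iso e⟩

theorem GGE.of_iso {k : ℤ} {M N : T} (e : M ≅ N) (hM : GGE 𝒜 k M) : GGE 𝒜 k N := by
  obtain ⟨l, hl, hM⟩ := hM
  exact ⟨l, hl, hM.of_iso e⟩

theorem GLE.mono {k k' : ℤ} (h : k ≤ k') {M : T} (hM : GLE 𝒜 k M) : GLE 𝒜 k' M := by
  obtain ⟨l, hl, hM⟩ := hM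
  exact ⟨l, fun x hx => (hl x hx).trans h, hM⟩

theorem GGE.anti {k k' : ℤ} (h : k ≤ k') {M : T} (hM : GGE 𝒜 k' M) : GGE 𝒜 k M := by
  obtain ⟨l, hl, hM⟩ := hM
  exact ⟨l, fun x hx => h.trans (hl x hx), hM⟩

theorem filt_shift (h : ASys 𝒜) {l : List ℤ} {M : T} (hM : Filt 𝒜 l M) (a : ℤ) :
    Filt 𝒜 (l.map (· - a)) (M⟦a⟧) := by
  induction l generalizing M with
  | nil => exact (shiftFunctor T a).map_isZero hM
  | cons n l ih =>
    obtain ⟨X, M', f, g, k, hT, hX, hM'⟩ := hM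
    exact ⟨X⟦a⟧, M'⟦a⟧, _, _, _, Triangle.shift_distinguished _ hT a,
      h.shift n a (n - a) X (by ring) hX, ih hM'⟩

theorem GLE.shift (h : ASys 𝒜) {n a n' : ℤ} (hn : a + n' = n) {M : T}
    (hM : GLE 𝒜 n M) : GLE 𝒜 n' (M⟦a⟧) := by
  obtain ⟨l, hl, hM⟩ := hM
  refine ⟨_, fun x hx => ?_, filt_shift h hM a⟩
  obtain ⟨y, hy, rfl⟩ := List.mem_map.1 hx
  have := hl y hy
  omega

theorem GGE.shift (h : ASys 𝒜) {n a n' : ℤ} (hn : a + n' = n) {M : T}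
    (hM : GGE 𝒜 n M) : GGE 𝒜 n' (M⟦a⟧) := by
  obtain ⟨l, hl, hM⟩ := hM
  refine ⟨_, fun x hx => ?_, filt_shift h hM a⟩
  obtain ⟨y, hy, rfl⟩ := List.mem_map.1 hx
  have := hl y hy
  omega

theorem filt_one {n : ℤ} {X : T} (hX : 𝒜 n X) : Filt 𝒜 [n] X :=
  ⟨X, 0, 𝟙 X, 0, 0, contractible_distinguished X, hX, isZero_zero T⟩

theorem GLE.of_mem {n : ℤ} {X : T} (hX : 𝒜 n X) : GLE 𝒜 n X := ⟨[n], by simp, filt_one hX⟩

theorem GGE.of_mem {n : ℤ} {X : T} (hX : 𝒜 n X) : GGE 𝒜 n X := ⟨[n], by simp, filt_one hX⟩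

theorem GLE.ext {k : ℤ} {X Y Z : T} {f : X ⟶ Y} {g : Y ⟶ Z} {h : Z ⟶ X⟦(1 : ℤ)⟧}
    (hT : Triangle.mk f g h ∈ distTriang T) (hX : GLE 𝒜 k X) (hZ : GLE 𝒜 k Z) : GLE 𝒜 k Y := by
  obtain ⟨l, hl, hX⟩ := hX
  obtain ⟨l', hl', hZ⟩ := hZ
  refine ⟨l ++ l', fun x hx => ?_, Filt.concat hT hX hZ⟩
  rcases List.mem_append.1 hx with h | h
  · exact hl x h
  · exact hl' x h

theorem GGE.ext {k : ℤ} {X Y Z : T} {f : X ⟶ Y} {g : Y ⟶ Z} {h : Z ⟶ X⟦(1 : ℤ)⟧}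
    (hT : Triangle.mk f g h ∈ distTriang T) (hX : GGE 𝒜 k X) (hZ : GGE 𝒜 k Z) : GGE 𝒜 k Y := by
  obtain ⟨l, hl, hX⟩ := hX
  obtain ⟨l', hl', hZ⟩ := hZ
  refine ⟨l ++ l', fun x hx => ?_, Filt.concat hT hX hZ⟩
  rcases List.mem_append.1 hx with h | h
  · exact hl x h
  · exact hl' x h

theorem ASys.isZero (h : ASys 𝒜) {k : ℤ} {X : T} (h1 : GLE 𝒜 k X) (h2 : GGE 𝒜 (k + 1) X) :
    IsZero X := by
  rw [IsZero.iff_id_eq_zero]
  exact h.hom_zero h1 h2 _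

theorem ASys.sorted (h : ASys 𝒜) {l : List ℤ} {M : T} (hM : Filt 𝒜 l M) (k : ℤ) :
    ∃ (a b : List ℤ) (X Z : T) (f : X ⟶ M) (g : M ⟶ Z) (δ : Z ⟶ X⟦(1 : ℤ)⟧),
      (∀ x ∈ a, x ≤ k) ∧ (∀ x ∈ b, k + 1 ≤ x) ∧ Triangle.mk f g δ ∈ distTriang T ∧
      Filt 𝒜 a X ∧ Filt 𝒜 b Z := by
  have h1 := Filt.sort h.swap l hM
  obtain ⟨a, b, hab, ha, hb⟩ := exists_split_sorted k (l.insertionSort (· ≤ ·))
    (List.pairwise_insertionSort _ _)
  rw [hab] at h1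
  obtain ⟨X, Z, f, g, δ, hT, hX, hZ⟩ := h1.split
  exact ⟨a, b, X, Z, f, g, δ, ha, hb, hT, hX, hZ⟩

/-- the t-structure with the given objects concentrated in one degree. -/
def ASys.t (h : ASys 𝒜) : TStructure T where
  le n := GLE 𝒜 n
  ge n := GGE 𝒜 n
  le_isClosedUnderIsomorphisms n := ⟨fun e h => GLE.of_iso e h⟩
  ge_isClosedUnderIsomorphisms n := ⟨fun e h => GGE.of_iso e h⟩
  le_shift _ _ _ hn _ hX := hX.shift h hn
  ge_shift _ _ _ hn _ hX := hX.shift h hn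
  zero' X Y f hX hY := h.hom_zero hX hY f
  le_zero_le _ hX := hX.mono (by norm_num)
  ge_one_le _ hX := hX.anti (by norm_num)
  exists_triangle_zero_one M := by
    obtain ⟨l, hl⟩ := h.gen M
    obtain ⟨a, b, X, Z, f, g, δ, ha, hb, hT, hX, hZ⟩ := h.sorted hl 0
    exact ⟨X, Z, ⟨a, ha, hX⟩, ⟨b, hb, hZ⟩, f, g, δ, hT⟩

theorem list_bdd (l : List ℤ) : ∃ a b : ℤ, ∀ x ∈ l, a ≤ x ∧ x ≤ b := by
  induction l with
  | nil => exact ⟨0, 0, by simp⟩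
  | cons n l ih =>
    obtain ⟨a, b, h⟩ := ih
    refine ⟨min a n, max b n, fun x hx => ?_⟩
    rcases List.mem_cons.1 hx with rfl | hx
    · exact ⟨min_le_right _ _, le_max_right _ _⟩
    · exact ⟨(min_le_left _ _).trans (h x hx).1, (h x hx).2.trans (le_max_left _ _)⟩

theorem ASys.exists_bdd (h : ASys 𝒜) (X : T) : ∃ a b : ℤ, GGE 𝒜 a X ∧ GLE 𝒜 b X := by
  obtain ⟨l, hl⟩ := h.gen X
  obtain ⟨a, b, hab⟩ := list_bdd l
  exact ⟨a, b, ⟨l, fun x hx => (hab x hx).1, hl⟩, ⟨l, fun x hx => (hab x hx).2, hl⟩⟩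

theorem ASys.bounded (h : ASys 𝒜) : Pool.Agent.W492.MT.Bounded h.t := fun X => by
  obtain ⟨a, b, h1, h2⟩ := h.exists_bdd X
  exact ⟨⟨b, h2⟩, ⟨a, h1⟩⟩

theorem ASys.nonDegenerate (h : ASys 𝒜) : Pool.Agent.W492.MT.NonDegenerate h.t := by
  constructor
  · intro X hX
    obtain ⟨a, b, h1, h2⟩ := h.exists_bdd X
    exact h.isZero (k := a - 1) (hX (a - 1)) (by rwa [sub_add_cancel])
  · intro X hX
    obtain ⟨a, b, h1, h2⟩ := h.exists_bdd X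
    exact h.isZero (k := b) h2 (hX (b + 1))

end

section
variable {T : Type u} [Category.{v} T] [HasZeroObject T] [HasShift T ℤ] [Preadditive T]
  [∀ n : ℤ, (shiftFunctor T n).Additive] [Pretriangulated T] [IsTriangulated T]
  [MonoidalCategory T] [SymmetricCategory T] [RightRigidCategory T]
  [∀ X : T, (tensorLeft X).CommShift ℤ] [∀ X : T, (tensorLeft X).IsTriangulated]
  {𝒜 : ℤ → ObjectProperty T}

theorem filt_tensor {P : ObjectProperty T} (hiso : ∀ X Y, (X ≅ Y) → P X → P Y)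
    (hz : ∀ X, IsZero X → P X)
    (hext : ∀ (X Y Z : T) (f : X ⟶ Y) (g : Y ⟶ Z) (h : Z ⟶ X⟦(1 : ℤ)⟧),
      Triangle.mk f g h ∈ distTriang T → P X → P Z → P Y) {l l' : List ℤ} {X Y : T}
    (h : ∀ n ∈ l, ∀ m ∈ l', ∀ X Y, 𝒜 n X → 𝒜 m Y → P (X ⊗ Y))
    (hX : Filt 𝒜 l X) (hY : Filt 𝒜 l' Y) : P (X ⊗ Y) := by
  refine Filt.of_forall (P := fun X => P (X ⊗ Y)) ?_ ?_ ?_ hX
  · exact fun X hX => hz _ (isZero_tensor' Y hX)
  · intro A B C f g k hT hA hC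
    obtain ⟨k', hT'⟩ := tensor_triangle Y hT
    exact hiso _ _ (β_ B Y).symm (hext _ _ _ _ _ _ hT' (hiso _ _ (β_ A Y) hA)
      (hiso _ _ (β_ C Y) hC))
  · intro n hn A hA
    refine Filt.of_forall (P := fun Y => P (A ⊗ Y)) ?_ ?_ ?_ hY
    · exact fun X hX => hz _ (isZero_tensor A hX)
    · intro B B' B'' f g k hT hB hB''
      obtain ⟨k', hT'⟩ := tensor_triangle A hT
      exact hext _ _ _ _ _ _ hT' hB hB''
    · intro m hm B hB
      exact h n hn m hm A B hA hB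

theorem ASys.tensorExact (h : ASys 𝒜)
    (hten : ∀ n m X Y, 𝒜 n X → 𝒜 m Y → 𝒜 (n + m) (X ⊗ Y)) :
    Pool.Agent.W492.MT.TensorExact h.t := by
  intro X Y
  constructor
  · rintro ⟨l, hl, hX⟩ ⟨l', hl', hY⟩
    refine filt_tensor (P := GLE 𝒜 0) (fun X Y e h => h.of_iso e)
      (fun X hX => ⟨[], by simp, hX⟩) (fun X Y Z f g h hT hX hZ => GLE.ext hT hX hZ) ?_ hX hY
    intro n hn m hm X Y hX hY
    have h1 := hl n hn
    have h2 := hl' m hm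
    exact (GLE.of_mem (hten _ _ _ _ hX hY)).mono (by omega)
  · rintro ⟨l, hl, hX⟩ ⟨l', hl', hY⟩
    refine filt_tensor (P := GGE 𝒜 0) (fun X Y e h => h.of_iso e)
      (fun X hX => ⟨[], by simp, hX⟩) (fun X Y Z f g h hT hX hZ => GGE.ext hT hX hZ) ?_ hX hY
    intro n hn m hm X Y hX hY
    have h1 := hl n hn
    have h2 := hl' m hm
    exact (GGE.of_mem (hten _ _ _ _ hX hY)).anti (by omega)

end

section
variable {T : Type u} [Category.{v} T] [HasZeroObject T] [HasShift T ℤ] [Preadditive T]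
  [∀ n : ℤ, (shiftFunctor T n).Additive] [Pretriangulated T] [IsTriangulated T]
  {𝒜 : ℤ → ObjectProperty T}
  {D : Type u'} [Category.{v'} D] [HasZeroObject D] [HasShift D ℤ] [Preadditive D]
  [∀ n : ℤ, (shiftFunctor D n).Additive] [Pretriangulated D] [IsTriangulated D]
  (s : TStructure D) (R : T ⥤ D) [R.CommShift ℤ] [R.IsTriangulated]

theorem ASys.tExact (h : ASys 𝒜)
    (hR : ∀ n X, 𝒜 n X → s.le n (R.obj X) ∧ s.ge n (R.obj X)) :
    Pool.Agent.W492.MT.TExact h.t s R := by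
  intro n X
  constructor
  · rintro ⟨l, hl, hX⟩
    refine Filt.of_forall (P := fun X => s.le n (R.obj X)) ?_ ?_ ?_ hX
    · intro X hX
      exact (s.isLE_of_isZero (R.map_isZero hX) n).le
    · intro X Y Z f g k hT hX hZ
      exact (s.isLE₂ _ (R.map_distinguished _ hT) n ⟨hX⟩ ⟨hZ⟩).le
    · intro m hm X hX
      exact s.le_monotone (hl m hm) _ (hR m X hX).1
  · rintro ⟨l, hl, hX⟩
    refine Filt.of_forall (P := fun X => s.ge n (R.obj X)) ?_ ?_ ?_ hX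
    · intro X hX
      exact (s.isGE_of_isZero (R.map_isZero hX) n).ge
    · intro X Y Z f g k hT hX hZ
      exact (s.isGE₂ _ (R.map_distinguished _ hT) n ⟨hX⟩ ⟨hZ⟩).ge
    · intro m hm X hX
      exact s.ge_antitone (hl m hm) _ (hR m X hX).2

end

end Pool.Agent.H937.AS
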