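import Pool.Agent.H937.ASys

/-!
# Constant motives
-/

set_option linter.unusedSectionVars false
set_option linter.style.haveILetI false

open CategoryTheory Limits MonoidalCategory Triangulated Pretriangulated ZeroObject

namespace Pool.Agent.H937.AS

open Pool.Agent.W492.TS
open Pool.Agent.W492

universe v u v₀ u₀ v' u' w

/-- `Hom(X, Y) = 0` if `X ≥ 0` and `Y < -e` : the cohomological dimension of `t` is at most `e`. -/
def HomDim {T : Type u} [Category.{v} T] [HasZeroObject T] [HasShift T ℤ] [Preadditive T]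
    [∀ n : ℤ, (shiftFunctor T n).Additive] [Pretriangulated T] (t : TStructure T) (e : ℤ) :
    Prop :=
  ∀ X Y : T, t.ge 0 X → t.le (-e - 1) Y → ∀ f : X ⟶ Y, f = 0

section
variable {S : Type u₀} [Category.{v₀} S] [HasZeroObject S] [HasShift S ℤ] [Preadditive S]
  [∀ n : ℤ, (shiftFunctor S n).Additive] [Pretriangulated S]
  [MonoidalCategory S]
  {T : Type u} [Category.{v} T] [MonoidalCategory T]

/-- Morphisms between constant objects : every `f : P A ⟶ P B` is obtained from some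
`g : A ⟶ B ⊗ N` by a morphism `e : P N ⟶ 1`, where `N` has a morphism `u : 1 ⟶ N` such that
`P u ≫ e` is the identity of `1`, the cone of which is concentrated in degrees `1, …, d`.
(`N = p_* 1` for `p : U ⟶ Spec k`, `U` a smooth affine variety of dimension `d`.) -/
def ConstHom (t₀ : TStructure S) (P : S ⥤ T) [P.Monoidal] (d : ℤ) : Prop :=
  ∀ (A B : S) (f : P.obj A ⟶ P.obj B), ∃ (N W : S) (u : 𝟙_ S ⟶ N) (v : N ⟶ W)
    (w : W ⟶ (𝟙_ S)⟦(1 : ℤ)⟧) (g : A ⟶ B ⊗ N) (e : P.obj N ⟶ 𝟙_ T),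
    Triangle.mk u v w ∈ distTriang S ∧ t₀.ge 1 W ∧ t₀.le d W ∧
    P.map u ≫ e = (Functor.Monoidal.εIso P).inv ∧
    f = P.map g ≫ (Functor.Monoidal.μIso P B N).inv ≫ (P.obj B ◁ e) ≫ (ρ_ (P.obj B)).hom

end

section
variable {S : Type u₀} [Category.{v₀} S] [HasZeroObject S] [HasShift S ℤ] [Preadditive S]
  [∀ n : ℤ, (shiftFunctor S n).Additive] [Pretriangulated S] [IsTriangulated S]
  [MonoidalCategory S] [SymmetricCategory S] [RightRigidCategory S]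
  [∀ X : S, (tensorLeft X).CommShift ℤ] [∀ X : S, (tensorLeft X).IsTriangulated]
  {t₀ : TStructure S}

theorem deg_tensor_ge (ht : MT.TensorExact t₀) {X Y : S} {a b c : ℤ} (hc : a + b = c)
    (hX : t₀.IsGE X a) (hY : t₀.IsGE Y b) : t₀.IsGE (X ⊗ Y) c := by
  have a1 : t₀.IsGE (X⟦a⟧) 0 := t₀.isGE_shift X a a 0
  have a2 : t₀.IsGE (Y⟦b⟧) 0 := t₀.isGE_shift Y b b 0
  have e := PC.tensorShiftIso X Y a b c hc
  have h1 : t₀.IsGE ((X ⊗ Y)⟦c⟧) 0 := ⟨(t₀.ge 0).prop_of_iso e ((ht _ _).2 a1.ge a2.ge)⟩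
  exact t₀.isGE_of_shift (X ⊗ Y) c c 0

theorem deg_tensor_le (ht : MT.TensorExact t₀) {X Y : S} {a b c : ℤ} (hc : a + b = c)
    (hX : t₀.IsLE X a) (hY : t₀.IsLE Y b) : t₀.IsLE (X ⊗ Y) c := by
  have a1 : t₀.IsLE (X⟦a⟧) 0 := t₀.isLE_shift X a a 0
  have a2 : t₀.IsLE (Y⟦b⟧) 0 := t₀.isLE_shift Y b b 0
  have e := PC.tensorShiftIso X Y a b c hc
  have h1 : t₀.IsLE ((X ⊗ Y)⟦c⟧) 0 := ⟨(t₀.le 0).prop_of_iso e ((ht _ _).1 a1.le a2.le)⟩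
  exact t₀.isLE_of_shift (X ⊗ Y) c c 0

theorem tensor_unit_ge {B : S} {n : ℤ} (hB : t₀.IsGE B n) : t₀.IsGE (B ⊗ 𝟙_ S) n :=
  t₀.isGE_of_iso (ρ_ B).symm n

theorem tensor_unit_le {B : S} {n : ℤ} (hB : t₀.IsLE B n) : t₀.IsLE (B ⊗ 𝟙_ S) n :=
  t₀.isLE_of_iso (ρ_ B).symm n

end

section
variable {S : Type u₀} [Category.{v₀} S] [HasZeroObject S] [HasShift S ℤ] [Preadditive S]
  [∀ n : ℤ, (shiftFunctor S n).Additive] [Pretriangulated S] [IsTriangulated S]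
  [MonoidalCategory S] [SymmetricCategory S] [RightRigidCategory S]
  [∀ X : S, (tensorLeft X).CommShift ℤ] [∀ X : S, (tensorLeft X).IsTriangulated]
  {T : Type u} [Category.{v} T] [HasZeroObject T] [HasShift T ℤ] [Preadditive T]
  [∀ n : ℤ, (shiftFunctor T n).Additive] [Pretriangulated T] [IsTriangulated T]
  [MonoidalCategory T]
  {t₀ : TStructure S} {P : S ⥤ T} [P.CommShift ℤ] [P.IsTriangulated] [P.Monoidal] {d : ℤ}

theorem const_orth (ht : MT.TensorExact t₀) (hc : ConstHom t₀ P d) {A B : S} {n m : ℤ}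
    (hnm : n < m) (hA : t₀.IsLE A n) (hB : t₀.IsGE B m) (f : P.obj A ⟶ P.obj B) : f = 0 := by
  obtain ⟨N, W, u, v, w, g, e, hT, hW1, -, -, hf⟩ := hc A B f
  obtain ⟨h', hT'⟩ := tensor_triangle B hT
  have h1 : t₀.IsGE (B ⊗ W) m := by
    have h2 : t₀.IsGE W 1 := ⟨hW1⟩
    have h3 : t₀.IsGE (B ⊗ W) (m + 1) := deg_tensor_ge ht rfl hB h2
    exact t₀.isGE_of_ge _ m (m + 1)
  have h2 : t₀.IsGE (B ⊗ N) m := t₀.isGE₂ _ hT' m (tensor_unit_ge hB) h1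
  have hg : g = 0 := t₀.zero g n m
  rw [hf, hg, P.map_zero, zero_comp]

theorem const_full (ht : MT.TensorExact t₀) (hc : ConstHom t₀ P d) {A B : S} {n : ℤ}
    (hA : t₀.IsLE A n) (hB : t₀.IsGE B n) (f : P.obj A ⟶ P.obj B) :
    ∃ g : A ⟶ B, P.map g = f := by
  obtain ⟨N, W, u, v, w, g, e, hT, hW1, -, hue, hf⟩ := hc A B f
  obtain ⟨h', hT'⟩ := tensor_triangle B hT
  have h2 : t₀.IsGE W 1 := ⟨hW1⟩
  have h3 : t₀.IsGE (B ⊗ W) (n + 1) := deg_tensor_ge ht rfl hB h2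
  have h4 : g ≫ (B ◁ v) = 0 := t₀.zero _ n (n + 1)
  obtain ⟨k, hk⟩ : ∃ k : A ⟶ B ⊗ 𝟙_ S, g = k ≫ (B ◁ u) :=
    Triangle.coyoneda_exact₂ _ hT' g h4
  refine ⟨k ≫ (ρ_ B).hom, ?_⟩
  have h5 : P.map (B ◁ u) ≫ (Functor.Monoidal.μIso P B N).inv ≫ (P.obj B ◁ e) ≫
      (ρ_ (P.obj B)).hom = P.map (ρ_ B).hom := by
    have h6 : P.map (B ◁ u) ≫ (Functor.Monoidal.μIso P B N).inv =
        (Functor.Monoidal.μIso P B (𝟙_ S)).inv ≫ P.obj B ◁ P.map u :=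
      (Functor.OplaxMonoidal.δ_natural_right P B u).symm
    rw [reassoc_of% h6, ← MonoidalCategory.whiskerLeft_comp_assoc, hue]
    simp
  rw [hf, hk, P.map_comp, P.map_comp, Category.assoc, h5]

end

section
variable {S : Type u₀} [Category.{v₀} S] [HasZeroObject S] [HasShift S ℤ] [Preadditive S]
  [∀ n : ℤ, (shiftFunctor S n).Additive] [Pretriangulated S]
  {T : Type u} [Category.{v} T]

/-- the images of the objects concentrated in degree `n`. -/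
def Img (t₀ : TStructure S) (P : S ⥤ T) (n : ℤ) : ObjectProperty T := fun X =>
  ∃ A : S, t₀.le n A ∧ t₀.ge n A ∧ Nonempty (X ≅ P.obj A)

end

section
variable {S : Type u₀} [Category.{v₀} S] [HasZeroObject S] [HasShift S ℤ] [Preadditive S]
  [∀ n : ℤ, (shiftFunctor S n).Additive] [Pretriangulated S] [IsTriangulated S]
  [MonoidalCategory S] [SymmetricCategory S] [RightRigidCategory S]
  [∀ X : S, (tensorLeft X).CommShift ℤ] [∀ X : S, (tensorLeft X).IsTriangulated]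
  {T : Type u} [Category.{v} T] [HasZeroObject T] [HasShift T ℤ] [Preadditive T]
  [∀ n : ℤ, (shiftFunctor T n).Additive] [Pretriangulated T] [IsTriangulated T]
  [MonoidalCategory T]
  {t₀ : TStructure S} {P : S ⥤ T} [P.CommShift ℤ] [P.IsTriangulated] [P.Monoidal] {d : ℤ}

theorem img_shift (n a n' : ℤ) (X : T) (h : a + n' = n) (hX : Img t₀ P n X) :
    Img t₀ P n' (X⟦a⟧) := by
  obtain ⟨A, h1, h2, ⟨e⟩⟩ := hX
  exact ⟨A⟦a⟧, t₀.le_shift n a n' h A h1, t₀.ge_shift n a n' h A h2,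
    ⟨(shiftFunctor T a).mapIso e ≪≫ ((P.commShiftIso a).app A).symm⟩⟩

theorem img_swap (ht : MT.TensorExact t₀) (hc : ConstHom t₀ P d) : Swap (Img t₀ P) := by
  intro n m hnm X M Y f g h hT hX hY
  have hX' := hX
  have hY' := hY
  obtain ⟨A, hA1, hA2, ⟨eX⟩⟩ := hX
  obtain ⟨B, hB1, hB2, ⟨eY⟩⟩ := hY
  have iA1 : t₀.IsLE A m := ⟨hA1⟩
  have iA2 : t₀.IsGE A m := ⟨hA2⟩
  have iB1 : t₀.IsLE B n := ⟨hB1⟩
  have iB2 : t₀.IsGE B n := ⟨hB2⟩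
  have iA3 : t₀.IsGE (A⟦(1 : ℤ)⟧) (m - 1) := t₀.isGE_shift A m 1 (m - 1)
  let φ : P.obj B ⟶ P.obj (A⟦(1 : ℤ)⟧) :=
    eY.inv ≫ h ≫ eX.hom⟦(1 : ℤ)⟧' ≫ (P.commShiftIso (1 : ℤ)).inv.app A
  by_cases hm : m = n + 1
  · subst hm
    have iA4 : t₀.IsGE (A⟦(1 : ℤ)⟧) n := by simpa using iA3
    obtain ⟨γ, hγ⟩ := const_full ht hc iB1 iA4 φ
    obtain ⟨E, a, b, hE⟩ := distinguished_cocone_triangle₂ γ
    have hPE := P.map_distinguished _ hE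
    have comm : h ≫ eX.hom⟦(1 : ℤ)⟧' =
        eY.hom ≫ (P.map γ ≫ (P.commShiftIso (1 : ℤ)).hom.app A) := by
      rw [hγ]
      simp [φ]
    let ι := isoTriangleOfIso₁₃ _ _ hT hPE eX eY comm
    let eM : M ≅ P.obj E := Triangle.π₂.mapIso ι
    obtain ⟨K, Q, hK, hQ, p, q, r, hKQ⟩ := t₀.exists_triangle E n (n + 1) rfl
    have iK : t₀.IsLE K n := ⟨hK⟩
    have iQ : t₀.IsGE Q (n + 1) := ⟨hQ⟩
    have iE1 : t₀.IsLE E (n + 1) := t₀.isLE₂ _ hE (n + 1) iA1 (t₀.isLE_of_le B n (n + 1))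
    have iE2 : t₀.IsGE E n := t₀.isGE₂ _ hE n (t₀.isGE_of_ge A n (n + 1)) iB2
    have iK2 : t₀.IsGE K n := isGE_obj₁ t₀ hKQ n iE2 (t₀.isGE_of_ge Q (n - 1) (n + 1))
    have iQ2 : t₀.IsLE Q (n + 1) :=
      isLE_obj₃ t₀ hKQ (n + 1) (t₀.isLE_of_le K n (n + 1 + 1)) iE1
    exact ⟨P.obj K, P.obj Q, _, _, _, tri_iso₂ (P.map_distinguished _ hKQ) eM.symm,
      ⟨K, iK.le, iK2.ge, ⟨Iso.refl _⟩⟩, ⟨Q, iQ2.le, iQ.ge, ⟨Iso.refl _⟩⟩⟩
  · have hφ : φ = 0 := const_orth ht hc (n := n) (m := m - 1) (by omega) iB1 iA3 φ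
    have hh : h = 0 := by
      have h1 : h ≫ (eX.hom⟦(1 : ℤ)⟧' ≫ (P.commShiftIso (1 : ℤ)).inv.app A) = 0 := by
        rw [← cancel_epi eY.inv, comp_zero]
        exact hφ
      have h2 : IsIso (eX.hom⟦(1 : ℤ)⟧' ≫ (P.commShiftIso (1 : ℤ)).inv.app A) := by
        infer_instance
      rw [← cancel_mono (eX.hom⟦(1 : ℤ)⟧' ≫ (P.commShiftIso (1 : ℤ)).inv.app A), h1, zero_comp]
    obtain ⟨ρ, hρ⟩ : ∃ ρ : M ⟶ X, f ≫ ρ = 𝟙 X := by
      obtain ⟨ρ, hρ⟩ := Triangle.yoneda_exact₂ _ (inv_rot_of_distTriang _ hT) (𝟙 X) (by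
        change (-(h⟦(-1 : ℤ)⟧') ≫ (shiftEquiv T (1 : ℤ)).unitIso.inv.app X) ≫ 𝟙 X = 0
        rw [hh]
        simp)
      exact ⟨ρ, hρ.symm⟩
    obtain ⟨e⟩ := PC.exists_iso_biprod hT ρ hρ
    exact ⟨Y, X, _, _, _, tri_iso₂ (binaryBiproductTriangle_distinguished Y X)
      (e ≪≫ biprod.braiding X Y).symm, hY', hX'⟩

theorem img_filt (hb : MT.Bounded t₀) (A : S) : ∃ l, Filt (Img t₀ P) l (P.obj A) := by
  obtain ⟨⟨b, hb'⟩, ⟨a, ha⟩⟩ := hb A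
  have key : ∀ (k : ℕ) (a : ℤ) (A : S), t₀.IsGE A a → t₀.IsLE A (a + k) →
      ∃ l, Filt (Img t₀ P) l (P.obj A) := by
    intro k
    induction k with
    | zero =>
      intro a A h1 h2
      have h3 : t₀.IsLE A a := by simpa using h2
      exact ⟨[a], filt_one ⟨A, h3.le, h1.ge, ⟨Iso.refl _⟩⟩⟩
    | succ k ih =>
      intro a A h1 h2
      obtain ⟨K, Q, hK, hQ, p, q, r, hKQ⟩ := t₀.exists_triangle A a (a + 1) rfl
      have iK : t₀.IsLE K a := ⟨hK⟩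
      have iQ : t₀.IsGE Q (a + 1) := ⟨hQ⟩
      have iK2 : t₀.IsGE K a := isGE_obj₁ t₀ hKQ a h1 (t₀.isGE_of_ge Q (a - 1) (a + 1))
      have e1 : a + ((k + 1 : ℕ) : ℤ) = a + 1 + (k : ℤ) := by push_cast; ring
      rw [e1] at h2
      have iQ2 : t₀.IsLE Q (a + 1 + k) :=
        isLE_obj₃ t₀ hKQ (a + 1 + k) (t₀.isLE_of_le K a _ (by omega)) h2
      obtain ⟨l, hl⟩ := ih (a + 1) Q iQ iQ2
      exact ⟨a :: l, P.obj K, P.obj Q, _, _, _, P.map_distinguished _ hKQ,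
        ⟨K, iK.le, iK2.ge, ⟨Iso.refl _⟩⟩, hl⟩
  have h1 : t₀.IsGE A a := ⟨ha⟩
  have h2 : t₀.IsLE A b := ⟨hb'⟩
  exact key (b - a).toNat a A h1 (t₀.isLE_of_le A b _ (by omega))

theorem img_filt_shift {l : List ℤ} {M : T} (hM : Filt (Img t₀ P) l M) (a : ℤ) :
    Filt (Img t₀ P) (l.map (· - a)) (M⟦a⟧) := by
  induction l generalizing M with
  | nil => exact (shiftFunctor T a).map_isZero hM
  | cons n l ih =>
    obtain ⟨X, M', f, g, k, hT, hX, hM'⟩ := hM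
    exact ⟨X⟦a⟧, M'⟦a⟧, _, _, _, Triangle.shift_distinguished _ hT a,
      img_shift n a (n - a) X (by ring) hX, ih hM'⟩

theorem img_asys (hb : MT.Bounded t₀) (ht : MT.TensorExact t₀) (hc : ConstHom t₀ P d)
    (hgen : ∀ Q : ObjectProperty T, Q.IsClosedUnderIsomorphisms → Q.IsTriangulated →
      (∀ A, Q (P.obj A)) → ∀ M, Q M) : ASys (Img t₀ P) where
  shift := img_shift
  orth n m hnm X Y hX hY f := by
    obtain ⟨A, hA1, hA2, ⟨eX⟩⟩ := hX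
    obtain ⟨B, hB1, hB2, ⟨eY⟩⟩ := hY
    have h1 := const_orth ht hc hnm (A := A) (B := B) ⟨hA1⟩ ⟨hB2⟩ (eX.inv ≫ f ≫ eY.hom)
    rw [← cancel_epi eX.inv, ← cancel_mono eY.hom, Category.assoc, h1, comp_zero, zero_comp]
  swap := img_swap ht hc
  gen M := by
    let Q : ObjectProperty T := fun M => ∃ l, Filt (Img t₀ P) l M
    haveI h0 : Q.IsClosedUnderIsomorphisms := ⟨fun e ⟨l, hl⟩ => ⟨l, hl.of_iso e⟩⟩
    haveI h1 : Q.ContainsZero := ⟨⟨0, isZero_zero T, ⟨[], isZero_zero T⟩⟩⟩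
    haveI h2 : Q.IsStableUnderShift ℤ :=
      ⟨fun a => ⟨fun X ⟨l, hl⟩ => ⟨l.map (· - a), img_filt_shift hl a⟩⟩⟩
    haveI h3 : Q.IsTriangulatedClosed₂ :=
      ObjectProperty.IsTriangulatedClosed₂.mk' fun t ht ⟨l, hl⟩ ⟨l', hl'⟩ =>
        ⟨l ++ l', Filt.concat ht hl hl'⟩
    exact hgen Q h0 {} (fun A => img_filt hb A) M

/-- constant motives : the t-structure. -/
theorem const_dim (hb : MT.Bounded t₀) (ht : MT.TensorExact t₀) (hc : ConstHom t₀ P d)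
    (hgen : ∀ Q : ObjectProperty T, Q.IsClosedUnderIsomorphisms → Q.IsTriangulated →
      (∀ A, Q (P.obj A)) → ∀ M, Q M) (hd : 0 ≤ d) {e : ℤ} (he : HomDim t₀ e) :
    HomDim (img_asys hb ht hc hgen).t (e + d) := by
  rintro X Y ⟨l, hl, hX⟩ ⟨l', hl', hY⟩ f
  refine hom_zero_of_filt (𝒜 := Img t₀ P) ?_ hX hY f
  rintro n hn m hm X Y ⟨A, hA1, hA2, ⟨eX⟩⟩ ⟨B, hB1, hB2, ⟨eY⟩⟩ f
  have h1 := hl n hn
  have h2 := hl' m hm
  have iA : t₀.IsGE A n := ⟨hA2⟩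
  have iA0 : t₀.IsGE A 0 := t₀.isGE_of_ge A 0 n
  have iB : t₀.IsLE B m := ⟨hB1⟩
  have key : eX.inv ≫ f ≫ eY.hom = 0 := by
    obtain ⟨N, W, u, v, w, g, ε, hT, hW1, hW2, -, hf⟩ := hc A B (eX.inv ≫ f ≫ eY.hom)
    obtain ⟨h', hT'⟩ := tensor_triangle B hT
    have iW : t₀.IsLE W d := ⟨hW2⟩
    have h3 : t₀.IsLE (B ⊗ W) (m + d) := deg_tensor_le ht rfl iB iW
    have h4 : t₀.IsLE (B ⊗ 𝟙_ S) (m + d) := by
      have := tensor_unit_le iB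
      exact t₀.isLE_of_le _ m (m + d)
    have h5 : t₀.IsLE (B ⊗ N) (m + d) := t₀.isLE₂ _ hT' (m + d) h4 h3
    have h6 : t₀.IsLE (B ⊗ N) (-e - 1) := t₀.isLE_of_le _ (m + d) _ (by omega)
    have hg : g = 0 := he _ _ iA0.ge h6.le g
    rw [hf, hg, P.map_zero, zero_comp]
  rw [← cancel_epi eX.inv, ← cancel_mono eY.hom, Category.assoc, key, comp_zero, zero_comp]

end

end Pool.Agent.H937.AS
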