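import Pool.Agent.H937.Const

/-!
# Constant motives : the main result
-/

set_option linter.unusedSectionVars false
set_option linter.style.haveILetI false

open CategoryTheory Limits MonoidalCategory Triangulated Pretriangulated ZeroObject

namespace Pool.Agent.H937.AS

open Pool.Agent.W492.TS
open Pool.Agent.W492

universe v u v₀ u₀ v' u' w

variable {S : Type u₀} [Category.{v₀} S] [HasZeroObject S] [HasShift S ℤ] [Preadditive S]
  [∀ n : ℤ, (shiftFunctor S n).Additive] [Pretriangulated S] [IsTriangulated S]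
  [MonoidalCategory S] [SymmetricCategory S] [RightRigidCategory S]
  [∀ X : S, (tensorLeft X).CommShift ℤ] [∀ X : S, (tensorLeft X).IsTriangulated]
  {T : Type u} [Category.{v} T] [HasZeroObject T] [HasShift T ℤ] [Preadditive T]
  [∀ n : ℤ, (shiftFunctor T n).Additive] [Pretriangulated T] [IsTriangulated T]
  [MonoidalCategory T] [MonoidalPreadditive T] [SymmetricCategory T] [RightRigidCategory T]
  [∀ X : T, (tensorLeft X).CommShift ℤ] [∀ X : T, (tensorLeft X).IsTriangulated]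
  {t₀ : TStructure S} {P : S ⥤ T} [P.CommShift ℤ] [P.IsTriangulated] [P.Monoidal] {d : ℤ}

theorem img_filt_bdd (k : ℕ) (a : ℤ) (A : S) (h1 : t₀.IsGE A a) (h2 : t₀.IsLE A (a + k)) :
    ∃ l, (∀ x ∈ l, a ≤ x ∧ x ≤ a + k) ∧ Filt (Img t₀ P) l (P.obj A) := by
  induction k generalizing a A with
  | zero =>
    have h3 : t₀.IsLE A a := by simpa using h2
    exact ⟨[a], by simp, filt_one ⟨A, h3.le, h1.ge, ⟨Iso.refl _⟩⟩⟩
  | succ k ih =>
    obtain ⟨K, Q, hK, hQ, p, q, r, hKQ⟩ := t₀.exists_triangle A a (a + 1) rfl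
    have iK : t₀.IsLE K a := ⟨hK⟩
    have iQ : t₀.IsGE Q (a + 1) := ⟨hQ⟩
    have iK2 : t₀.IsGE K a := isGE_obj₁ t₀ hKQ a h1 (t₀.isGE_of_ge Q (a - 1) (a + 1))
    have e1 : a + ((k + 1 : ℕ) : ℤ) = a + 1 + (k : ℤ) := by push_cast; ring
    rw [e1] at h2
    have iQ2 : t₀.IsLE Q (a + 1 + k) :=
      isLE_obj₃ t₀ hKQ (a + 1 + k) (t₀.isLE_of_le K a _ (by omega)) h2
    obtain ⟨l, hl, hf⟩ := ih (a + 1) Q iQ iQ2
    refine ⟨a :: l, fun x hx => ?_, P.obj K, P.obj Q, _, _, _, P.map_distinguished _ hKQ,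
      ⟨K, iK.le, iK2.ge, ⟨Iso.refl _⟩⟩, hf⟩
    rcases List.mem_cons.1 hx with rfl | hx
    · constructor <;> omega
    · have := hl x hx
      constructor <;> push_cast <;> omega

theorem img_exact (hb : MT.Bounded t₀) (ht : MT.TensorExact t₀) (hc : ConstHom t₀ P d)
    (hgen : ∀ Q : ObjectProperty T, Q.IsClosedUnderIsomorphisms → Q.IsTriangulated →
      (∀ A, Q (P.obj A)) → ∀ M, Q M) : MT.TExact t₀ (img_asys hb ht hc hgen).t P := by
  intro n A
  obtain ⟨⟨b, hb'⟩, ⟨a, ha⟩⟩ := hb A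
  constructor
  · intro hn
    have h1 : t₀.IsLE A n := ⟨hn⟩
    have h2 : t₀.IsGE A (min a n) := ⟨t₀.ge_antitone (min_le_left a n) _ ha⟩
    have h3 : t₀.IsLE A (min a n + (n - min a n).toNat) := by
      have : min a n + ((n - min a n).toNat : ℤ) = n := by
        have := min_le_right a n
        omega
      rw [this]
      exact h1
    obtain ⟨l, hl, hf⟩ := img_filt_bdd (P := P) _ _ A h2 h3
    refine ⟨l, fun x hx => ?_, hf⟩
    have h4 := (hl x hx).2
    have h5 := min_le_right a n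
    omega
  · intro hn
    have h1 : t₀.IsGE A n := ⟨hn⟩
    have h2 : t₀.IsLE A (n + (b - n).toNat) :=
      ⟨t₀.le_monotone (show b ≤ n + (b - n).toNat by omega) _ hb'⟩
    obtain ⟨l, hl, hf⟩ := img_filt_bdd (P := P) _ _ A h1 h2
    exact ⟨l, fun x hx => (hl x hx).1, hf⟩

/-- constant motives : the functor from `S` is fully faithful on the heart. -/
theorem const_bijective (hb : MT.Bounded t₀) (hnd : MT.NonDegenerate t₀)
    (ht : MT.TensorExact t₀) (hone : ∀ e : 𝟙_ S ⟶ 𝟙_ S, e ≫ e = e → e = 0 ∨ e = 𝟙 _)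
    (hc : ConstHom t₀ P d)
    (hgen : ∀ Q : ObjectProperty T, Q.IsClosedUnderIsomorphisms → Q.IsTriangulated →
      (∀ A, Q (P.obj A)) → ∀ M, Q M) (hT : ¬ IsZero (𝟙_ T)) {A B : S} (hA : t₀.le 0 A)
    (hB : t₀.ge 0 B) : Function.Bijective (fun g : A ⟶ B => P.map g) := by
  have hex := img_exact hb ht hc hgen
  constructor
  · intro g g' hg
    have h1 : P.map (g - g') = 0 := by
      rw [P.map_sub]
      exact sub_eq_zero.2 hg
    have h2 := PC.faithful_on_heart P hex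
      (fun X hX => isZero_of_isZero_map P hnd (TensorExact.heart ht) hone hex hT hX) hA hB
      (g - g') h1
    exact sub_eq_zero.1 h2
  · intro f
    obtain ⟨g, hg⟩ := const_full ht hc (A := A) (B := B) (n := 0) ⟨hA⟩ ⟨hB⟩ f
    exact ⟨g, hg⟩

theorem nonDegenerate_of_bounded (hb : MT.Bounded t₀) : MT.NonDegenerate t₀ := by
  constructor
  · intro X hX
    obtain ⟨-, ⟨a, ha⟩⟩ := hb X
    have h1 : t₀.IsLE X (a - 1) := ⟨hX _⟩
    have h2 : t₀.IsGE X a := ⟨ha⟩
    exact t₀.isZero X (a - 1) a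
  · intro X hX
    obtain ⟨⟨b, hb⟩, -⟩ := hb X
    have h1 : t₀.IsLE X b := ⟨hb⟩
    have h2 : t₀.IsGE X (b + 1) := ⟨hX _⟩
    exact t₀.isZero X b (b + 1)

end Pool.Agent.H937.AS
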