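import Pool.Graph.R_pool_sql_team_seeded_f72693b1.W492.PC.Fin

/-!
# The t-structure defined by a semisimple system of pure objects
-/

set_option linter.unusedSectionVars false
set_option linter.style.haveILetI false

open CategoryTheory Limits MonoidalCategory Triangulated Pretriangulated ZeroObject

namespace Pool.Agent.H937.PT

open Pool.Agent.W492.TS Pool.Agent.W492.PC
open Pool.Agent.W492.MT (IsSum)

universe v u

section
variable {T : Type u} [Category.{v} T] [Preadditive T]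

theorem hom_zero_iso' {A A' B B' : T} (e : A ≅ A') (e' : B ≅ B') (h : ∀ f : A ⟶ B, f = 0)
    (f : A' ⟶ B') : f = 0 := by
  have := h (e.hom ≫ f ≫ e'.inv)
  rw [← cancel_epi e.hom, ← cancel_mono e'.inv, Category.assoc, this, comp_zero, zero_comp]

end

variable {T : Type u} [Category.{v} T] [HasZeroObject T] [HasShift T ℤ] [Preadditive T]
  [∀ n : ℤ, (shiftFunctor T n).Additive] [Pretriangulated T] [IsTriangulated T]
  {𝒲 : ℤ → ObjectProperty T}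

/-- iterated extensions of objects `X` with `X⟦n⟧` pure for some `n ≤ k`. -/
def FLE (𝒲 : ℤ → ObjectProperty T) (k : ℤ) : ObjectProperty T := fun M =>
  ∃ l : List ℤ, (∀ x ∈ l, x ≤ k) ∧ Filt (PureDeg 𝒲) l M

/-- iterated extensions of objects `X` with `X⟦n⟧` pure for some `n ≥ k`. -/
def FGE (𝒲 : ℤ → ObjectProperty T) (k : ℤ) : ObjectProperty T := fun M =>
  ∃ l : List ℤ, (∀ x ∈ l, k ≤ x) ∧ Filt (PureDeg 𝒲) l M

theorem hom_zero_pure (hvan : NegVanishing 𝒲) {n m : ℤ} (hnm : n < m) {X Y : T}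
    (hX : PureDeg 𝒲 n X) (hY : PureDeg 𝒲 m Y) (f : X ⟶ Y) : f = 0 := by
  obtain ⟨v, hv⟩ := hX
  obtain ⟨w, hw⟩ := hY
  apply (shiftFunctor T n).map_injective
  rw [Functor.map_zero]
  have h1 := hvan v w _ _ hv hw (n - m) (by omega)
  exact hom_zero_iso' (Iso.refl _) (shiftIso Y m (n - m) n (by ring)) h1 _

theorem hom_zero_filt (hvan : NegVanishing 𝒲) {k : ℤ} {X Y : T} (hX : FLE 𝒲 k X)
    (hY : FGE 𝒲 (k + 1) Y) (f : X ⟶ Y) : f = 0 := by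
  obtain ⟨l, hl, hX⟩ := hX
  obtain ⟨l', hl', hY⟩ := hY
  let P : ObjectProperty T := fun X => ∀ f : X ⟶ Y, f = 0
  refine Filt.of_forall (P := P) ?_ ?_ ?_ hX f
  · intro X hX f
    exact hX.eq_of_src _ _
  · intro X Y' Z f g h hT hX hZ y
    obtain ⟨z, hz⟩ := Triangle.yoneda_exact₂ _ hT y (hX _)
    rw [hz, hZ z]
    exact comp_zero
  · intro n hn X hX f
    let Q : ObjectProperty T := fun Y => ∀ f : X ⟶ Y, f = 0
    refine Filt.of_forall (P := Q) ?_ ?_ ?_ hY f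
    · intro X hX f
      exact hX.eq_of_tgt _ _
    · intro X Y' Z f g h hT hX hZ y
      obtain ⟨z, hz⟩ := Triangle.coyoneda_exact₂ _ hT y (hZ _)
      rw [hz, hX z]
      exact zero_comp
    · intro m hm Y hY f
      have h1 := hl n hn
      have h2 := hl' m hm
      exact hom_zero_pure hvan (by omega) hX hY f

theorem FLE.of_iso {k : ℤ} {M N : T} (e : M ≅ N) (hM : FLE 𝒲 k M) : FLE 𝒲 k N := by
  obtain ⟨l, hl, hM⟩ := hM
  exact ⟨l, hl, hM.of_iso e⟩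

theorem FGE.of_iso {k : ℤ} {M N : T} (e : M ≅ N) (hM : FGE 𝒲 k M) : FGE 𝒲 k N := by
  obtain ⟨l, hl, hM⟩ := hM
  exact ⟨l, hl, hM.of_iso e⟩

theorem FLE.mono {k k' : ℤ} (h : k ≤ k') {M : T} (hM : FLE 𝒲 k M) : FLE 𝒲 k' M := by
  obtain ⟨l, hl, hM⟩ := hM
  exact ⟨l, fun x hx => (hl x hx).trans h, hM⟩

theorem FGE.anti {k k' : ℤ} (h : k ≤ k') {M : T} (hM : FGE 𝒲 k' M) : FGE 𝒲 k M := by
  obtain ⟨l, hl, hM⟩ := hM
  exact ⟨l, fun x hx => h.trans (hl x hx), hM⟩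

theorem FLE.ext {k : ℤ} {X Y Z : T} {f : X ⟶ Y} {g : Y ⟶ Z} {h : Z ⟶ X⟦(1 : ℤ)⟧}
    (hT : Triangle.mk f g h ∈ distTriang T) (hX : FLE 𝒲 k X) (hZ : FLE 𝒲 k Z) : FLE 𝒲 k Y := by
  obtain ⟨l, hl, hX⟩ := hX
  obtain ⟨l', hl', hZ⟩ := hZ
  refine ⟨l ++ l', fun x hx => ?_, Filt.concat hT hX hZ⟩
  rcases List.mem_append.1 hx with h | h
  · exact hl x h
  · exact hl' x h

theorem FGE.ext {k : ℤ} {X Y Z : T} {f : X ⟶ Y} {g : Y ⟶ Z} {h : Z ⟶ X⟦(1 : ℤ)⟧}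
    (hT : Triangle.mk f g h ∈ distTriang T) (hX : FGE 𝒲 k X) (hZ : FGE 𝒲 k Z) : FGE 𝒲 k Y := by
  obtain ⟨l, hl, hX⟩ := hX
  obtain ⟨l', hl', hZ⟩ := hZ
  refine ⟨l ++ l', fun x hx => ?_, Filt.concat hT hX hZ⟩
  rcases List.mem_append.1 hx with h | h
  · exact hl x h
  · exact hl' x h

theorem FLE.shift (hret : RetractClosed 𝒲) {n a n' : ℤ} (h : a + n' = n) {M : T}
    (hM : FLE 𝒲 n M) : FLE 𝒲 n' (M⟦a⟧) := by
  obtain ⟨l, hl, hM⟩ := hM
  refine ⟨_, fun x hx => ?_, filtPure_shift hret hM a⟩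
  obtain ⟨y, hy, rfl⟩ := List.mem_map.1 hx
  have := hl y hy
  omega

theorem FGE.shift (hret : RetractClosed 𝒲) {n a n' : ℤ} (h : a + n' = n) {M : T}
    (hM : FGE 𝒲 n M) : FGE 𝒲 n' (M⟦a⟧) := by
  obtain ⟨l, hl, hM⟩ := hM
  refine ⟨_, fun x hx => ?_, filtPure_shift hret hM a⟩
  obtain ⟨y, hy, rfl⟩ := List.mem_map.1 hx
  have := hl y hy
  omega

theorem filt_pure {n : ℤ} {X : T} (hX : PureDeg 𝒲 n X) : Filt (PureDeg 𝒲) [n] X :=
  ⟨X, 0, 𝟙 X, 0, 0, contractible_distinguished X, hX, isZero_zero T⟩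

theorem isZero_of_FLE_FGE (hvan : NegVanishing 𝒲) {k : ℤ} {X : T} (h1 : FLE 𝒲 k X)
    (h2 : FGE 𝒲 (k + 1) X) : IsZero X := by
  rw [IsZero.iff_id_eq_zero]
  exact hom_zero_filt hvan h1 h2 _

/-- the assumptions on the system of pure objects. -/
structure PSys (𝒲 : ℤ → ObjectProperty T) : Prop where
  ret : RetractClosed 𝒲
  ss : Semisimple 𝒲
  van : NegVanishing 𝒲
  gen : Generated fun X : T => ∃ w, 𝒲 w X

theorem PSys.sorted [IsIdempotentComplete T] (h : PSys 𝒲) {l : List ℤ} {M : T}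
    (hM : Filt (PureDeg 𝒲) l M) (k : ℤ) :
    ∃ (a b : List ℤ) (X Z : T) (f : X ⟶ M) (g : M ⟶ Z) (δ : Z ⟶ X⟦(1 : ℤ)⟧),
      (∀ x ∈ a, x ≤ k) ∧ (∀ x ∈ b, k + 1 ≤ x) ∧ (∀ x ∈ a, x ∈ l) ∧ (∀ x ∈ b, x ∈ l) ∧
      Triangle.mk f g δ ∈ distTriang T ∧ Filt (PureDeg 𝒲) a X ∧ Filt (PureDeg 𝒲) b Z := by
  have h1 := Filt.sort (swap_pureDeg h.ret h.ss h.van) l hM
  obtain ⟨a, b, hab, ha, hb⟩ := exists_split_sorted k (l.insertionSort (· ≤ ·))
    (List.pairwise_insertionSort _ _)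
  have hmem : ∀ x, x ∈ a ++ b → x ∈ l := fun x hx => by
    rw [← hab] at hx
    exact (List.mem_insertionSort _).1 hx
  rw [hab] at h1
  obtain ⟨X, Z, f, g, δ, hT, hX, hZ⟩ := h1.split
  exact ⟨a, b, X, Z, f, g, δ, ha, hb, fun x hx => hmem x (List.mem_append_left _ hx),
    fun x hx => hmem x (List.mem_append_right _ hx), hT, hX, hZ⟩

/-- the t-structure with the pure objects in its heart. -/
def pureT [IsIdempotentComplete T] (h : PSys 𝒲) : TStructure T where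
  le n := FLE 𝒲 n
  ge n := FGE 𝒲 n
  le_isClosedUnderIsomorphisms n := ⟨fun e h => FLE.of_iso e h⟩
  ge_isClosedUnderIsomorphisms n := ⟨fun e h => FGE.of_iso e h⟩
  le_shift _ _ _ hn _ hX := hX.shift h.ret hn
  ge_shift _ _ _ hn _ hX := hX.shift h.ret hn
  zero' X Y f hX hY := hom_zero_filt h.van hX hY f
  le_zero_le _ hX := hX.mono (by norm_num)
  ge_one_le _ hX := hX.anti (by norm_num)
  exists_triangle_zero_one M := by
    obtain ⟨l, hl⟩ := exists_filt h.ret h.gen M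
    obtain ⟨a, b, X, Z, f, g, δ, ha, hb, -, -, hT, hX, hZ⟩ := h.sorted hl 0
    exact ⟨X, Z, ⟨a, ha, hX⟩, ⟨b, hb, hZ⟩, f, g, δ, hT⟩

theorem FLE_of_pure {n : ℤ} {X : T} (hX : PureDeg 𝒲 n X) : FLE 𝒲 n X :=
  ⟨[n], by simp, filt_pure hX⟩

theorem FGE_of_pure {n : ℤ} {X : T} (hX : PureDeg 𝒲 n X) : FGE 𝒲 n X :=
  ⟨[n], by simp, filt_pure hX⟩

theorem pure_zero (hret : RetractClosed 𝒲) {w : ℤ} {X : T} (hX : 𝒲 w X) : PureDeg 𝒲 0 X :=
  ⟨w, hret w _ _ hX ⟨Retract.ofIso ((shiftFunctorZero T ℤ).app X)⟩⟩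

theorem list_bdd (l : List ℤ) : ∃ a b : ℤ, ∀ x ∈ l, a ≤ x ∧ x ≤ b := by
  induction l with
  | nil => exact ⟨0, 0, by simp⟩
  | cons n l ih =>
    obtain ⟨a, b, h⟩ := ih
    refine ⟨min a n, max b n, fun x hx => ?_⟩
    rcases List.mem_cons.1 hx with rfl | hx
    · exact ⟨min_le_right _ _, le_max_right _ _⟩
    · exact ⟨(min_le_left _ _).trans (h x hx).1, (h x hx).2.trans (le_max_left _ _)⟩

theorem PSys.exists_bdd (h : PSys 𝒲) (X : T) : ∃ a b : ℤ, FGE 𝒲 a X ∧ FLE 𝒲 b X := by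
  obtain ⟨l, hl⟩ := exists_filt h.ret h.gen X
  obtain ⟨a, b, hab⟩ := list_bdd l
  exact ⟨a, b, ⟨l, fun x hx => (hab x hx).1, hl⟩, ⟨l, fun x hx => (hab x hx).2, hl⟩⟩

section
variable [IsIdempotentComplete T]

theorem pureT_bounded (h : PSys 𝒲) : Pool.Agent.W492.MT.Bounded (pureT h) := fun X => by
  obtain ⟨a, b, h1, h2⟩ := h.exists_bdd X
  exact ⟨⟨b, h2⟩, ⟨a, h1⟩⟩

theorem pureT_nonDegenerate (h : PSys 𝒲) : Pool.Agent.W492.MT.NonDegenerate (pureT h) := by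
  constructor
  · intro X hX
    obtain ⟨a, b, h1, h2⟩ := h.exists_bdd X
    exact isZero_of_FLE_FGE h.van (k := a - 1) (hX (a - 1)) (by rwa [sub_add_cancel])
  · intro X hX
    obtain ⟨a, b, h1, h2⟩ := h.exists_bdd X
    exact isZero_of_FLE_FGE h.van (k := b) h2 (hX (b + 1))

theorem pureT_heart (h : PSys 𝒲) {w : ℤ} {X : T} (hX : 𝒲 w X) :
    (pureT h).le 0 X ∧ (pureT h).ge 0 X :=
  ⟨FLE_of_pure (pure_zero h.ret hX), FGE_of_pure (pure_zero h.ret hX)⟩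

theorem le_of_FLE {t : TStructure T} (ht : ∀ w X, 𝒲 w X → t.le 0 X) {n : ℤ} {X : T}
    (hX : FLE 𝒲 n X) : t.le n X := by
  obtain ⟨l, hl, hX⟩ := hX
  refine Filt.of_forall (P := t.le n) ?_ ?_ ?_ hX
  · intro X hX
    exact (t.isLE_of_isZero hX n).le
  · intro X Y Z f g k hT hX hZ
    exact (t.isLE₂ _ hT n ⟨hX⟩ ⟨hZ⟩).le
  · rintro m hm X ⟨w, hw⟩
    have h1 : t.IsLE (X⟦m⟧) 0 := ⟨ht w _ hw⟩
    have h2 : t.IsLE X m := t.isLE_of_shift X m m 0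
    have h3 := hl m hm
    exact (t.isLE_of_le X m n).le

theorem ge_of_FGE {t : TStructure T} (ht : ∀ w X, 𝒲 w X → t.ge 0 X) {n : ℤ} {X : T}
    (hX : FGE 𝒲 n X) : t.ge n X := by
  obtain ⟨l, hl, hX⟩ := hX
  refine Filt.of_forall (P := t.ge n) ?_ ?_ ?_ hX
  · intro X hX
    exact (t.isGE_of_isZero hX n).ge
  · intro X Y Z f g k hT hX hZ
    exact (t.isGE₂ _ hT n ⟨hX⟩ ⟨hZ⟩).ge
  · rintro m hm X ⟨w, hw⟩
    have h1 : t.IsGE (X⟦m⟧) 0 := ⟨ht w _ hw⟩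
    have h2 : t.IsGE X m := t.isGE_of_shift X m m 0
    have h3 := hl m hm
    exact (t.isGE_of_ge X n m).ge

omit [IsIdempotentComplete T] in
theorem tExt {t t' : TStructure T} (h1 : ∀ n X, t.le n X ↔ t'.le n X)
    (h2 : ∀ n X, t.ge n X ↔ t'.ge n X) : t = t' := by
  have e1 : t.le = t'.le := by
    funext n X
    exact propext (h1 n X)
  have e2 : t.ge = t'.ge := by
    funext n X
    exact propext (h2 n X)
  cases t
  cases t'
  simp only at e1 e2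
  subst e1
  subst e2
  rfl

/-- a t-structure with the pure objects in its heart is the one constructed. -/
theorem pureT_unique (h : PSys 𝒲) {t : TStructure T} (ht : ∀ w X, 𝒲 w X → t.le 0 X ∧ t.ge 0 X) :
    t = pureT h := by
  apply tExt
  · intro n X
    refine ⟨fun hX => ?_, le_of_FLE (fun w X hX => (ht w X hX).1)⟩
    suffices h0 : (pureT h).IsLE X n from h0.le
    rw [(pureT h).isLE_iff_orthogonal n (n + 1) rfl]
    intro Y f hY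
    have h1 : t.IsGE Y (n + 1) := ⟨ge_of_FGE (fun w X hX => (ht w X hX).2) hY.ge⟩
    have h2 : t.IsLE X n := ⟨hX⟩
    exact t.zero f n (n + 1)
  · intro n X
    refine ⟨fun hX => ?_, ge_of_FGE (fun w X hX => (ht w X hX).2)⟩
    suffices h0 : (pureT h).IsGE X n from h0.ge
    rw [(pureT h).isGE_iff_orthogonal (n - 1) n (by ring)]
    intro Y f hY
    have h1 : t.IsLE Y (n - 1) := ⟨le_of_FLE (fun w X hX => (ht w X hX).1) hY.le⟩
    have h2 : t.IsGE X n := ⟨hX⟩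
    exact t.zero f (n - 1) n

/-- an object of the heart is an iterated extension of pure objects. -/
theorem PSys.filt_heart (h : PSys 𝒲) {M : T} (h1 : FLE 𝒲 0 M) (h2 : FGE 𝒲 0 M) :
    ∃ l : List ℤ, (∀ x ∈ l, x = 0) ∧ Filt (PureDeg 𝒲) l M := by
  obtain ⟨l, hl, hM⟩ := h1
  obtain ⟨a, b, X, Z, f, g, δ, ha, hb, ha', hb', hT, hX, hZ⟩ := h.sorted hM (-1)
  have h3 : FLE 𝒲 (-1) X := ⟨a, ha, hX⟩
  have h4 : FGE 𝒲 (-1 + 1) M := h2
  have hf : f = 0 := hom_zero_filt h.van h3 h4 f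
  have hb'' : ∀ x ∈ b, x = 0 := fun x hx => by
    have := hb x hx
    have := hl x (hb' x hx)
    omega
  have h5 : FGE 𝒲 0 Z := ⟨b, fun x hx => (hb'' x hx).ge, hZ⟩
  have h6 : FGE 𝒲 1 (Z⟦(-1 : ℤ)⟧) := h5.shift h.ret (by norm_num)
  have hX0 : IsZero X := by
    rw [IsZero.iff_id_eq_zero]
    obtain ⟨u, hu⟩ := Triangle.coyoneda_exact₂ _ (inv_rot_of_distTriang _ hT) (𝟙 X) (by
      change 𝟙 X ≫ f = 0
      rw [hf, comp_zero])
    have h7 : FGE 𝒲 (-1 + 1) (Z⟦(-1 : ℤ)⟧) := h6.anti (by norm_num)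
    rw [hu, hom_zero_filt h.van h3 h7 u]
    exact zero_comp
  have hg : IsIso g := (Triangle.isZero₁_iff_isIso₂ _ hT).1 hX0
  exact ⟨b, hb'', hZ.of_iso (asIso g).symm⟩

/-- if extensions of pure objects split, every object of the heart is a direct sum of pure
objects. -/
theorem PSys.isSum_heart (h : PSys 𝒲)
    (hext : ∀ v w X Y, 𝒲 v X → 𝒲 w Y → ∀ f : X ⟶ Y⟦(1 : ℤ)⟧, f = 0) {M : T}
    (h1 : FLE 𝒲 0 M) (h2 : FGE 𝒲 0 M) : ∃ n, IsSum (fun X => ∃ w, 𝒲 w X) n M := by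
  obtain ⟨l, hl, hM⟩ := h.filt_heart h1 h2
  clear h1 h2
  induction l generalizing M with
  | nil => exact ⟨0, hM⟩
  | cons n l ih =>
    obtain ⟨X, M', f, g, δ, hT, hX, hM'⟩ := hM
    obtain ⟨k, hk⟩ := ih (fun x hx => hl x (by simp [hx])) hM'
    have hn : n = 0 := hl n (by simp)
    subst hn
    obtain ⟨w, hw⟩ := hX
    have hX' : 𝒲 w X := h.ret w _ _ hw ⟨Retract.ofIso ((shiftFunctorZero T ℤ).app X).symm⟩
    have hδ : δ = 0 := by
      have key : ∀ (k : ℕ) (M' : T), IsSum (fun X => ∃ w, 𝒲 w X) k M' →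
          ∀ δ : M' ⟶ X⟦(1 : ℤ)⟧, δ = 0 := by
        intro k
        induction k with
        | zero => exact fun M' hM' δ => IsZero.eq_of_src hM' _ _
        | succ k ih =>
          rintro M' ⟨A, B, ⟨v, hA⟩, hB, ⟨e⟩⟩ δ
          rw [← cancel_epi e.inv, comp_zero]
          apply biprod.hom_ext'
          · rw [comp_zero]
            exact hext v w _ _ hA hX' _
          · rw [comp_zero]
            exact ih B hB _
      exact key k M' hk δ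
    obtain ⟨ρ, hρ⟩ : ∃ ρ : M ⟶ X, f ≫ ρ = 𝟙 X := by
      obtain ⟨ρ, hρ⟩ := Triangle.yoneda_exact₂ _ (inv_rot_of_distTriang _ hT) (𝟙 X) (by
        change (-(δ⟦(-1 : ℤ)⟧') ≫ (shiftEquiv T (1 : ℤ)).unitIso.inv.app X) ≫ 𝟙 X = 0
        rw [hδ]
        simp)
      exact ⟨ρ, hρ.symm⟩
    obtain ⟨e⟩ := exists_iso_biprod hT ρ hρ
    exact ⟨k + 1, X, M', ⟨w, hX'⟩, hk, ⟨e⟩⟩

/-- if extensions of pure objects split, the heart is semisimple. -/
theorem PSys.reg_heart (h : PSys 𝒲)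
    (hext : ∀ v w X Y, 𝒲 v X → 𝒲 w Y → ∀ f : X ⟶ Y⟦(1 : ℤ)⟧, f = 0) {M N : T}
    (hM1 : FLE 𝒲 0 M) (hM2 : FGE 𝒲 0 M) (hN1 : FLE 𝒲 0 N) (hN2 : FGE 𝒲 0 N) :
    Reg M N := by
  obtain ⟨n, hn⟩ := h.isSum_heart hext hM1 hM2
  obtain ⟨m, hm⟩ := h.isSum_heart hext hN1 hN2
  exact Reg.isSum (fun A B ⟨v, hA⟩ ⟨w, hB⟩ => h.ss v w A B hA hB) hn hm

end

end Pool.Agent.H937.PT
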