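import Pool.Agent.H937.PureT

/-!
# Weight-stretched t-structures
-/

set_option linter.unusedSectionVars false
set_option linter.style.haveILetI false

open CategoryTheory Limits MonoidalCategory Triangulated Pretriangulated ZeroObject

namespace Pool.Agent.H937.PT

open Pool.Agent.W492.TS Pool.Agent.W492.PC
open Pool.Agent.W492.MT (tpow ins symm tr IsSum)

universe v u v' u' w

section
variable {T : Type u} [Category.{v} T] [HasZeroObject T] [HasShift T ℤ] [Preadditive T]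
  [∀ n : ℤ, (shiftFunctor T n).Additive] [Pretriangulated T] [IsTriangulated T]
  [MonoidalCategory T] [SymmetricCategory T] [RightRigidCategory T]
  [∀ X : T, (tensorLeft X).CommShift ℤ] [∀ X : T, (tensorLeft X).IsTriangulated]
  {𝒲 : ℤ → ObjectProperty T}

theorem pureDeg_tensor (hret : RetractClosed 𝒲)
    (hten : ∀ v w X Y, 𝒲 v X → 𝒲 w Y → 𝒲 (v + w) (X ⊗ Y)) {n m : ℤ} {X Y : T}
    (hX : PureDeg 𝒲 n X) (hY : PureDeg 𝒲 m Y) : PureDeg 𝒲 (n + m) (X ⊗ Y) := by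
  obtain ⟨v, hv⟩ := hX
  obtain ⟨w, hw⟩ := hY
  exact ⟨v + w, hret _ _ _ (hten _ _ _ _ hv hw)
    ⟨Retract.ofIso (tensorShiftIso X Y n m _ rfl).symm⟩⟩

/-- closure under extensions and zero objects, tensored. -/
theorem filt_tensor {P : ObjectProperty T} (hiso : ∀ X Y, (X ≅ Y) → P X → P Y)
    (hz : ∀ X, IsZero X → P X)
    (hext : ∀ (X Y Z : T) (f : X ⟶ Y) (g : Y ⟶ Z) (h : Z ⟶ X⟦(1 : ℤ)⟧),
      Triangle.mk f g h ∈ distTriang T → P X → P Z → P Y) {l l' : List ℤ} {X Y : T}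
    (h : ∀ n ∈ l, ∀ m ∈ l', ∀ X Y, PureDeg 𝒲 n X → PureDeg 𝒲 m Y → P (X ⊗ Y))
    (hX : Filt (PureDeg 𝒲) l X) (hY : Filt (PureDeg 𝒲) l' Y) : P (X ⊗ Y) := by
  refine Filt.of_forall (P := fun X => P (X ⊗ Y)) ?_ ?_ ?_ hX
  · exact fun X hX => hz _ (isZero_tensor' Y hX)
  · intro A B C f g k hT hA hC
    obtain ⟨k', hT'⟩ := tensor_triangle Y hT
    exact hiso _ _ (β_ B Y).symm (hext _ _ _ _ _ _ hT' (hiso _ _ (β_ A Y) hA)
      (hiso _ _ (β_ C Y) hC))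
  · intro n hn A hA
    refine Filt.of_forall (P := fun Y => P (A ⊗ Y)) ?_ ?_ ?_ hY
    · exact fun X hX => hz _ (isZero_tensor A hX)
    · intro B B' B'' f g k hT hB hB''
      obtain ⟨k', hT'⟩ := tensor_triangle A hT
      exact hext _ _ _ _ _ _ hT' hB hB''
    · intro m hm B hB
      exact h n hn m hm A B hA hB

theorem FLE.tensor (hret : RetractClosed 𝒲)
    (hten : ∀ v w X Y, 𝒲 v X → 𝒲 w Y → 𝒲 (v + w) (X ⊗ Y)) {a b : ℤ} {X Y : T}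
    (hX : FLE 𝒲 a X) (hY : FLE 𝒲 b Y) : FLE 𝒲 (a + b) (X ⊗ Y) := by
  obtain ⟨l, hl, hX⟩ := hX
  obtain ⟨l', hl', hY⟩ := hY
  refine filt_tensor (P := FLE 𝒲 (a + b)) (fun X Y e h => h.of_iso e)
    (fun X hX => ⟨[], by simp, hX⟩) (fun X Y Z f g h hT hX hZ => FLE.ext hT hX hZ) ?_ hX hY
  intro n hn m hm X Y hX hY
  have h1 := hl n hn
  have h2 := hl' m hm
  exact (FLE_of_pure (pureDeg_tensor hret hten hX hY)).mono (by omega)

theorem FGE.tensor (hret : RetractClosed 𝒲)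
    (hten : ∀ v w X Y, 𝒲 v X → 𝒲 w Y → 𝒲 (v + w) (X ⊗ Y)) {a b : ℤ} {X Y : T}
    (hX : FGE 𝒲 a X) (hY : FGE 𝒲 b Y) : FGE 𝒲 (a + b) (X ⊗ Y) := by
  obtain ⟨l, hl, hX⟩ := hX
  obtain ⟨l', hl', hY⟩ := hY
  refine filt_tensor (P := FGE 𝒲 (a + b)) (fun X Y e h => h.of_iso e)
    (fun X hX => ⟨[], by simp, hX⟩) (fun X Y Z f g h hT hX hZ => FGE.ext hT hX hZ) ?_ hX hY
  intro n hn m hm X Y hX hY
  have h1 := hl n hn
  have h2 := hl' m hm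
  exact (FGE_of_pure (pureDeg_tensor hret hten hX hY)).anti (by omega)

theorem pureT_tensorExact [IsIdempotentComplete T] (h : PSys 𝒲)
    (hten : ∀ v w X Y, 𝒲 v X → 𝒲 w Y → 𝒲 (v + w) (X ⊗ Y)) :
    Pool.Agent.W492.MT.TensorExact (pureT h) := fun X Y =>
  ⟨fun hX hY => by
      have := FLE.tensor h.ret hten (a := 0) (b := 0) hX hY
      rwa [add_zero] at this,
    fun hX hY => by
      have := FGE.tensor h.ret hten (a := 0) (b := 0) hX hY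
      rwa [add_zero] at this⟩

end

section
variable {T : Type u} [Category.{v} T] [HasZeroObject T] [HasShift T ℤ] [Preadditive T]
  [∀ n : ℤ, (shiftFunctor T n).Additive] [Pretriangulated T] [IsTriangulated T]
  [MonoidalCategory T] [SymmetricCategory T] [RightRigidCategory T]
  [∀ X : T, (tensorLeft X).CommShift ℤ] [∀ X : T, (tensorLeft X).IsTriangulated]
  {I : Type w} {D : I → Type u'} [∀ i, Category.{v'} (D i)] [∀ i, HasZeroObject (D i)]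
  [∀ i, HasShift (D i) ℤ] [∀ i, Preadditive (D i)]
  [∀ i, ∀ n : ℤ, (shiftFunctor (D i) n).Additive] [∀ i, Pretriangulated (D i)]
  [∀ i, IsTriangulated (D i)] [∀ i, MonoidalCategory (D i)] [∀ i, MonoidalPreadditive (D i)]
  (R : ∀ i, T ⥤ D i) [∀ i, (R i).CommShift ℤ] [∀ i, (R i).IsTriangulated]
  [∀ i, (R i).Monoidal] (s : ∀ i, TStructure (D i)) [MonoidalPreadditive T]
  (𝒞 : ObjectProperty T)

/-- the objects `P⟦c * w⟧` with `P` a Chow motive with realisations in degree `w`. -/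
def CW (c w : ℤ) : ObjectProperty T := fun X => PureAt R s 𝒞 w (X⟦-(c * w)⟧)

/-- vanishing of slope `c`. -/
def SlopeV (c : ℤ) : Prop :=
  ∀ (X : T) (d : ℤ), PureAt R s 𝒞 d X → ∀ m : ℤ, m ≤ c * d → (d ≠ 0 ∨ m ≠ 0) →
    ∀ f : 𝟙_ T ⟶ X⟦m⟧, f = 0

/-- nonzero morphisms from Chow motives of degree `0` to the unit are numerically nontrivial. -/
def NumZ : Prop :=
  ∀ X : T, PureAt R s 𝒞 0 X → ∀ g : X ⟶ 𝟙_ T, g ≠ 0 → ∃ x : 𝟙_ T ⟶ X, x ≫ g ≠ 0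

variable {R s 𝒞}

theorem cw_ret (hC : ChowSystem R s 𝒞) (c : ℤ) : RetractClosed (CW R s 𝒞 c) := by
  rintro w X Y ⟨h1, h2⟩ ⟨r⟩
  exact ⟨hC.retract _ _ h1 ⟨r.map _⟩, h2.retract (r.map _)⟩

theorem cw_of_pureAt (hC : ChowSystem R s 𝒞) (c : ℤ) {d : ℤ} {X : T} (hX : PureAt R s 𝒞 d X) :
    CW R s 𝒞 c d (X⟦c * d⟧) := by
  have e := (shiftEquiv T (c * d)).unitIso.symm.app X
  exact ⟨hC.retract _ _ hX.1 ⟨Retract.ofIso e⟩, hX.2.retract (Retract.ofIso e)⟩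

theorem cw_iso (c : ℤ) {w : ℤ} (X : T) : Nonempty (X ≅ X⟦-(c * w)⟧⟦c * w⟧) :=
  ⟨(shiftFunctorZero T ℤ).symm.app X ≪≫ (shiftIso X (-(c * w)) (c * w) 0 (by ring)).symm⟩

/-- the morphisms between stretched pure objects. -/
theorem hom_zero_cw (hC : ChowSystem R s 𝒞) (hs : ∀ i, TensorExact (s i)) (c : ℤ) {v w m : ℤ}
    (h : ∀ Z, PureAt R s 𝒞 (-v + w) Z → ∀ f : 𝟙_ T ⟶ Z⟦c * (-v + w) + m⟧, f = 0) {X Y : T}
    (hX : CW R s 𝒞 c v X) (hY : CW R s 𝒞 c w Y) (f : X ⟶ Y⟦m⟧) : f = 0 := by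
  obtain ⟨eX⟩ := cw_iso c (w := v) X
  obtain ⟨eY⟩ := cw_iso c (w := w) Y
  have h1 : ∀ f : X⟦-(c * v)⟧⟦c * v⟧ ⟶ Y⟦-(c * w)⟧⟦c * w⟧⟦m⟧, f = 0 := by
    refine Pool.Agent.W492.PC.hom_zero_shift (c * v) (c * w) m (c * (-v + w) + m) (by ring) ?_
    refine hom_zero_of_dual ?_
    refine hom_zero_iso' (Iso.refl _)
      (((tensorLeft ((X⟦-(c * v)⟧ : T)ᘁ)).commShiftIso (c * (-v + w) + m)).app
        (Y⟦-(c * w)⟧)).symm ?_
    exact h _ (pureAt_dual_tensor hC hs hX hY)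
  exact hom_zero_iso' eX.symm ((shiftFunctor T m).mapIso eY).symm h1 f

theorem cw_van (hC : ChowSystem R s 𝒞) (hs : ∀ i, TensorExact (s i)) {c : ℤ}
    (hV : SlopeV R s 𝒞 c) : NegVanishing (CW R s 𝒞 c) := by
  intro v w X Y hX hY m hm f
  refine hom_zero_cw hC hs c (fun Z hZ => ?_) hX hY f
  refine hV Z _ hZ _ (by linarith) ?_
  by_cases h : -v + w = 0
  · right
    rw [h]
    omega
  · exact Or.inl h

/-- numerically trivial endomorphisms of pure objects vanish. -/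
theorem exists_tr' (hC : ChowSystem R s 𝒞) (hs : ∀ i, TensorExact (s i)) (hb : NumZ R s 𝒞) {Z : T}
    {d : ℤ} (hZ : PureAt R s 𝒞 d Z) (a : Z ⟶ Z) (ha : a ≠ 0) : ∃ h : Z ⟶ Z, tr (h ≫ a) ≠ 0 := by
  have h1 : (Zᘁ ◁ a) ≫ ε_ Z Zᘁ ≠ 0 := fun h => ha (comp_evaluation_injective a h)
  have h2 : PureAt R s 𝒞 0 (Zᘁ ⊗ Z) := by
    have := pureAt_dual_tensor hC hs hZ hZ
    rwa [neg_add_cancel] at this
  obtain ⟨x, hx⟩ := hb _ h2 _ h1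
  obtain ⟨h, hh⟩ := exists_hom_of_hom x
  refine ⟨h, ?_⟩
  rw [← comp_eq_tr, ← hh]
  exact hx

theorem exists_qi (hC : ChowSystem R s 𝒞) (F : Type*) [Field F] [Linear F T] [MonoidalLinear F T]
    (hone : ∀ e : 𝟙_ T ⟶ 𝟙_ T, ∃ a : F, e = a • 𝟙 _) (hs : ∀ i, TensorExact (s i))
    (hb : NumZ R s 𝒞) {P Q : T} {d : ℤ} (hP : PureAt R s 𝒞 d P) (hQ : PureAt R s 𝒞 d Q)
    (f : P ⟶ Q) : ∃ h : Q ⟶ P, f ≫ h ≫ f = f := by
  have hZ : PureAt R s 𝒞 d (P ⊞ Q) :=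
    ⟨hC.sum _ _ hP.1 hQ.1,
      RLE.obj₂ (binaryBiproductTriangle_distinguished P Q) hP.2.1 hQ.2.1,
      RGE.obj₂ (binaryBiproductTriangle_distinguished P Q) hP.2.2 hQ.2.2⟩
  obtain ⟨H, hH⟩ := exists_quasi_inverse F hone (hC.finRank _ hZ.1) (hC.trNil _ hZ.1)
    (exists_tr' hC hs hb hZ) (biprod.fst ≫ f ≫ biprod.inr)
  refine ⟨biprod.inr ≫ H ≫ biprod.fst, ?_⟩
  have h1 := congrArg (fun k => biprod.inl ≫ k ≫ biprod.snd) hH
  simpa using h1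

theorem not_isZero_map (hC : ChowSystem R s 𝒞) (F : Type*) [Field F] [Linear F T]
    (hone : ∀ e : 𝟙_ T ⟶ 𝟙_ T, ∃ a : F, e = a • 𝟙 _) (hD : ∀ i, ¬ IsZero (𝟙_ (D i)))
    (hs : ∀ i, TensorExact (s i)) (hb : NumZ R s 𝒞) {Z : T} {d : ℤ}
    (hZ : PureAt R s 𝒞 d Z) (i : I) (h0 : IsZero ((R i).obj Z)) : IsZero Z := by
  rw [IsZero.iff_id_eq_zero]
  by_contra hne
  obtain ⟨h, hh⟩ := exists_tr' hC hs hb hZ (𝟙 Z) hne
  obtain ⟨a, ha⟩ := hone (tr (h ≫ 𝟙 Z))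
  have ha0 : a ≠ 0 := by
    rintro rfl
    exact hh (by rw [ha, zero_smul])
  have h1 : IsZero ((R i).obj (Z ⊗ Zᘁ)) := by
    have h2 : IsZero ((R i).obj Z ⊗ (R i).obj Zᘁ) := by
      rw [IsZero.iff_id_eq_zero, ← id_whiskerRight, (IsZero.iff_id_eq_zero _).1 h0,
        MonoidalPreadditive.zero_whiskerRight]
    exact h2.of_iso (Functor.Monoidal.μIso (R i) Z Zᘁ).symm
  have h3 : (R i).map (𝟙 (𝟙_ T)) = 0 := by
    have h4 : 𝟙 (𝟙_ T) = (a⁻¹ • η_ Z Zᘁ) ≫ ((h ≫ 𝟙 Z) ▷ Zᘁ ≫ (β_ Z Zᘁ).hom ≫ ε_ Z Zᘁ) := by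
      rw [Linear.smul_comp]
      change _ = a⁻¹ • tr (h ≫ 𝟙 Z)
      rw [ha, smul_smul, inv_mul_cancel₀ ha0, one_smul]
    rw [h4, (R i).map_comp, h1.eq_of_tgt ((R i).map (a⁻¹ • η_ Z Zᘁ)) 0, zero_comp]
  apply hD i
  have h5 : IsZero ((R i).obj (𝟙_ T)) := by
    rw [IsZero.iff_id_eq_zero, ← CategoryTheory.Functor.map_id, h3]
  exact h5.of_iso (Functor.Monoidal.εIso (R i))

theorem cw_ss (hC : ChowSystem R s 𝒞) (F : Type*) [Field F] [Linear F T] [MonoidalLinear F T]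
    (hone : ∀ e : 𝟙_ T ⟶ 𝟙_ T, ∃ a : F, e = a • 𝟙 _) (hs : ∀ i, TensorExact (s i))
    (hb : NumZ R s 𝒞) {c : ℤ} (hV : SlopeV R s 𝒞 c) : Semisimple (CW R s 𝒞 c) := by
  intro v w X Y hX hY f
  by_cases hvw : v = w
  · subst hvw
    obtain ⟨k, hk⟩ := exists_qi hC F hone hs hb hX hY (f⟦-(c * v)⟧')
    obtain ⟨h, rfl⟩ := exists_unshift (-(c * v)) k
    refine ⟨h, (shiftFunctor T (-(c * v))).map_injective ?_⟩
    rw [Functor.map_comp, Functor.map_comp, hk]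
  · refine ⟨0, ?_⟩
    have h0 : f = 0 := by
      have h1 : ∀ f : X ⟶ Y⟦(0 : ℤ)⟧, f = 0 := hom_zero_cw hC hs c (fun Z hZ =>
        hV Z _ hZ _ (by linarith) (Or.inl (by omega))) hX hY
      exact hom_zero_iso' (Iso.refl _) ((shiftFunctorZero T ℤ).app Y) h1 f
    rw [h0, zero_comp]

theorem cw_gen (hC : ChowSystem R s 𝒞) (c : ℤ) (hK : Kunneth R s 𝒞) :
    Generated fun X : T => ∃ w, CW R s 𝒞 c w X := by
  intro P hP1 hP2 hP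
  refine hC.gen P hP1 hP2 ?_
  intro X hX
  obtain ⟨n, hn⟩ := hK X hX
  clear hX
  induction n generalizing X with
  | zero => exact P.prop_of_isZero hn
  | succ n ih =>
    obtain ⟨A, B, ⟨d, hA⟩, hB, ⟨e⟩⟩ := hn
    have h1 : P (A⟦c * d⟧) := hP _ ⟨d, cw_of_pureAt hC c hA⟩
    have h2 : P (A⟦c * d⟧⟦-(c * d)⟧) := P.le_shift (-(c * d)) _ h1
    have h3 : P A := P.prop_of_iso ((shiftEquiv T (c * d)).unitIso.symm.app A) h2
    have h4 := ih B hB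
    have h5 : P (A ⊞ B) :=
      P.ext_of_isTriangulatedClosed₂ _ (binaryBiproductTriangle_distinguished A B) h3 h4
    exact P.prop_of_iso e.symm h5

theorem cw_tensor (hC : ChowSystem R s 𝒞) (hs : ∀ i, TensorExact (s i)) (c : ℤ) :
    ∀ v w X Y, CW R s 𝒞 c v X → CW R s 𝒞 c w Y → CW R s 𝒞 c (v + w) (X ⊗ Y) := by
  intro v w X Y hX hY
  have h1 : PureAt R s 𝒞 (v + w) (X⟦-(c * v)⟧ ⊗ Y⟦-(c * w)⟧) :=
    ⟨hC.tensor _ _ hX.1 hY.1, RDeg.tensor hs hX.2 hY.2⟩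
  have e := tensorShiftIso X Y (-(c * v)) (-(c * w)) (-(c * (v + w))) (by ring)
  exact ⟨hC.retract _ _ h1.1 ⟨Retract.ofIso e.symm⟩, h1.2.retract (Retract.ofIso e.symm)⟩

theorem cw_psys (hC : ChowSystem R s 𝒞) (F : Type*) [Field F] [Linear F T] [MonoidalLinear F T]
    (hone : ∀ e : 𝟙_ T ⟶ 𝟙_ T, ∃ a : F, e = a • 𝟙 _) (hs : ∀ i, TensorExact (s i))
    (hK : Kunneth R s 𝒞) (hb : NumZ R s 𝒞) {c : ℤ} (hV : SlopeV R s 𝒞 c) :
    PSys (CW R s 𝒞 c) :=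
  ⟨cw_ret hC c, cw_ss hC F hone hs hb hV, cw_van hC hs hV, cw_gen hC c hK⟩

end

end Pool.Agent.H937.PT
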