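import Pool.Agent.H937.SlopeMain

/-!
# The slope of a tensor t-structure with pure motives concentrated in one degree
-/

set_option linter.unusedSectionVars false
set_option linter.style.haveILetI false

open CategoryTheory Limits MonoidalCategory Triangulated Pretriangulated ZeroObject

namespace Pool.Agent.H937.PT

open Pool.Agent.W492.TS Pool.Agent.W492.PC
open Pool.Agent.W492
open Pool.Agent.W492.MT (tpow tr)

universe v u v' u' w

/-- The heart of `t` contains a shift of each Chow motive whose realisations are concentrated in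
one degree. -/
def PureConcentrated {T : Type u} [Category.{v} T] [HasZeroObject T] [HasShift T ℤ] [Preadditive T]
    [∀ n : ℤ, (shiftFunctor T n).Additive] [Pretriangulated T]
    {I : Type w} {D : I → Type u'} [∀ i, Category.{v'} (D i)] [∀ i, HasZeroObject (D i)]
    [∀ i, HasShift (D i) ℤ] [∀ i, Preadditive (D i)]
    [∀ i, ∀ n : ℤ, (shiftFunctor (D i) n).Additive] [∀ i, Pretriangulated (D i)]
    (R : ∀ i, T ⥤ D i) (s : ∀ i, TStructure (D i)) (𝒞 : ObjectProperty T) (t : TStructure T) :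
    Prop :=
  ∀ (X : T) (d : ℤ), 𝒞 X → MT.InDeg R s d X → ∃ n : ℤ, t.le 0 (X⟦n⟧) ∧ t.ge 0 (X⟦n⟧)

variable {T : Type u} [Category.{v} T] [HasZeroObject T] [HasShift T ℤ] [Preadditive T]
  [∀ n : ℤ, (shiftFunctor T n).Additive] [Pretriangulated T] [IsTriangulated T]
  [IsIdempotentComplete T]
  [MonoidalCategory T] [SymmetricCategory T] [RightRigidCategory T]
  [∀ X : T, (tensorLeft X).CommShift ℤ] [∀ X : T, (tensorLeft X).IsTriangulated]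
  [MonoidalPreadditive T]
  {I : Type w} [Nonempty I] {D : I → Type u'} [∀ i, Category.{v'} (D i)]
  [∀ i, HasZeroObject (D i)]
  [∀ i, HasShift (D i) ℤ] [∀ i, Preadditive (D i)]
  [∀ i, ∀ n : ℤ, (shiftFunctor (D i) n).Additive] [∀ i, Pretriangulated (D i)]
  [∀ i, IsTriangulated (D i)] [∀ i, MonoidalCategory (D i)] [∀ i, MonoidalPreadditive (D i)]
  {R : ∀ i, T ⥤ D i} [∀ i, (R i).CommShift ℤ] [∀ i, (R i).IsTriangulated]
  [∀ i, (R i).Monoidal] {s : ∀ i, TStructure (D i)}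
  {F : Type} [Field F] [CharZero F] [Linear F T] [MonoidalLinear F T]
  {𝒞 : ObjectProperty T}

theorem unit_retract (h : MT.Setup R s 𝒞 F) (hN : NumericalZero R s 𝒞) {Z : T} {d : ℤ}
    (hZ : 𝒞 Z) (hd : MT.InDeg R s d Z) (h0 : ¬ IsZero Z) :
    ∃ (a : 𝟙_ T ⟶ Z ⊗ Zᘁ) (b : Z ⊗ Zᘁ ⟶ 𝟙_ T), a ≫ b = 𝟙 _ := by
  have hne : 𝟙 Z ≠ 0 := fun h => h0 ((IsZero.iff_id_eq_zero _).2 h)
  obtain ⟨g, hg⟩ := exists_tr' (chow_of_setup h) h.tensorExact
    (fun X hX => hN X hX.1 hX.2) ⟨hZ, hd⟩ (𝟙 Z) hne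
  obtain ⟨a, ha⟩ := h.scalar (tr (g ≫ 𝟙 Z))
  have ha0 : a ≠ 0 := by
    rintro rfl
    exact hg (by rw [ha, zero_smul])
  refine ⟨a⁻¹ • η_ Z Zᘁ, (g ≫ 𝟙 Z) ▷ Zᘁ ≫ (β_ Z Zᘁ).hom ≫ ε_ Z Zᘁ, ?_⟩
  rw [Linear.smul_comp]
  change a⁻¹ • tr (g ≫ 𝟙 Z) = _
  rw [ha, smul_smul, inv_mul_cancel₀ ha0, one_smul]

theorem isZero_of_tensor (h : MT.Setup R s 𝒞 F) (hN : NumericalZero R s 𝒞) {Z : T} {d : ℤ}
    (hZ : 𝒞 Z) (hd : MT.InDeg R s d Z) (h0 : ¬ IsZero Z) {X : T} (hX : IsZero (X ⊗ Z)) :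
    IsZero X := by
  obtain ⟨a, b, hab⟩ := unit_retract h hN hZ hd h0
  have h1 : IsZero (X ⊗ (Z ⊗ Zᘁ)) := (isZero_tensor' (Zᘁ) hX).of_iso (α_ X Z Zᘁ).symm
  rw [IsZero.iff_id_eq_zero]
  have h2 : 𝟙 X = (ρ_ X).inv ≫ (X ◁ a ≫ X ◁ b) ≫ (ρ_ X).hom := by
    rw [← MonoidalCategory.whiskerLeft_comp, hab]
    simp
  rw [h2, h1.eq_of_tgt (X ◁ a) 0]
  simp

theorem shift_heart {t : TStructure T} {X : T} {n : ℤ} (h1 : t.le 0 (X⟦n⟧)) (h2 : t.ge 0 (X⟦n⟧)) :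
    t.IsLE X n ∧ t.IsGE X n := by
  have h3 : t.IsLE (X⟦n⟧) 0 := ⟨h1⟩
  have h4 : t.IsGE (X⟦n⟧) 0 := ⟨h2⟩
  exact ⟨t.isLE_of_shift X n n 0, t.isGE_of_shift X n n 0⟩

theorem heart_unique {t : TStructure T} {X : T} (h0 : ¬ IsZero X) {n m : ℤ}
    (hn : t.IsLE X n ∧ t.IsGE X n) (hm : t.IsLE X m ∧ t.IsGE X m) : n = m := by
  obtain ⟨h1, h2⟩ := hn
  obtain ⟨h3, h4⟩ := hm
  by_contra hne
  rcases lt_or_gt_of_ne hne with h | h
  · exact h0 (t.isZero X n m h)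
  · exact h0 (t.isZero X m n h)

theorem inDeg_biprod {X Y : T} {d : ℤ} (hX : MT.InDeg R s d X) (hY : MT.InDeg R s d Y) :
    MT.InDeg R s d (X ⊞ Y) :=
  ⟨RLE.obj₂ (binaryBiproductTriangle_distinguished X Y) hX.1 hY.1,
    RGE.obj₂ (binaryBiproductTriangle_distinguished X Y) hX.2 hY.2⟩

/-- the degree of a nonzero Chow motive in `t` depends only on the degree of its realisations. -/
theorem degree_eq (h : MT.Setup R s 𝒞 F) {t : TStructure T} (ht : PureConcentrated R s 𝒞 t)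
    {X Y : T} {d : ℤ} (hX : 𝒞 X) (hY : 𝒞 Y) (hXd : MT.InDeg R s d X) (hYd : MT.InDeg R s d Y)
    (hX0 : ¬ IsZero X) (hY0 : ¬ IsZero Y) {n m : ℤ} (hn : t.IsLE X n ∧ t.IsGE X n)
    (hm : t.IsLE Y m ∧ t.IsGE Y m) : n = m := by
  obtain ⟨k, hk1, hk2⟩ := ht _ d (h.sum_mem X Y hX hY) (inDeg_biprod hXd hYd)
  obtain ⟨h1, h2⟩ := shift_heart hk1 hk2
  have r1 : Retract X (X ⊞ Y) := ⟨biprod.inl, biprod.fst, biprod.inl_fst⟩
  have r2 : Retract Y (X ⊞ Y) := ⟨biprod.inr, biprod.snd, biprod.inr_snd⟩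
  have e1 := heart_unique hX0 hn (m := k) ⟨⟨le_retract t r1 h1.le⟩, ⟨ge_retract t r1 h2.ge⟩⟩
  have e2 := heart_unique hY0 hm (m := k) ⟨⟨le_retract t r2 h1.le⟩, ⟨ge_retract t r2 h2.ge⟩⟩
  rw [e1, e2]

theorem tensor_degree {t : TStructure T} (hten : MT.TensorExact t) {X Y : T} {n m : ℤ}
    (hn : t.IsLE X n ∧ t.IsGE X n) (hm : t.IsLE Y m ∧ t.IsGE Y m) :
    t.IsLE (X ⊗ Y) (n + m) ∧ t.IsGE (X ⊗ Y) (n + m) := by
  obtain ⟨h1, h2⟩ := hn
  obtain ⟨h3, h4⟩ := hm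
  have a1 : t.IsLE (X⟦n⟧) 0 := t.isLE_shift X n n 0
  have a2 : t.IsGE (X⟦n⟧) 0 := t.isGE_shift X n n 0
  have a3 : t.IsLE (Y⟦m⟧) 0 := t.isLE_shift Y m m 0
  have a4 : t.IsGE (Y⟦m⟧) 0 := t.isGE_shift Y m m 0
  have e := tensorShiftIso X Y n m (n + m) rfl
  exact shift_heart ((t.le 0).prop_of_iso e ((hten _ _).1 a1.le a3.le))
    ((t.ge 0).prop_of_iso e ((hten _ _).2 a2.ge a4.ge))

theorem inDeg_tensor (h : MT.Setup R s 𝒞 F) {X Y : T} {d e : ℤ} (hX : MT.InDeg R s d X)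
    (hY : MT.InDeg R s e Y) : MT.InDeg R s (d + e) (X ⊗ Y) :=
  RDeg.tensor h.tensorExact hX hY

/-- the powers of a nonzero Chow motive of degree `1`. -/
theorem tpow_degree (h : MT.Setup R s 𝒞 F) (hN : NumericalZero R s 𝒞) {t : TStructure T}
    (hten : MT.TensorExact t) (hu : t.IsLE (𝟙_ T) 0 ∧ t.IsGE (𝟙_ T) 0) (h1 : ¬ IsZero (𝟙_ T))
    {E : T} (hE : 𝒞 E) (hE1 : MT.InDeg R s 1 E) (hE0 : ¬ IsZero E) {c : ℤ}
    (hc : t.IsLE E c ∧ t.IsGE E c) (k : ℕ) :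
    𝒞 (tpow E k) ∧ MT.InDeg R s k (tpow E k) ∧ ¬ IsZero (tpow E k) ∧
      t.IsLE (tpow E k) (c * k) ∧ t.IsGE (tpow E k) (c * k) := by
  induction k with
  | zero =>
    rw [Nat.cast_zero, mul_zero]
    exact ⟨h.one_mem, inDeg_unit h, h1, hu.1, hu.2⟩
  | succ k ih =>
    obtain ⟨a, b, e, f, g⟩ := ih
    have hd := inDeg_tensor h hE1 b
    have ht := tensor_degree hten hc ⟨f, g⟩
    have e1 : (1 : ℤ) + k = ((k + 1 : ℕ) : ℤ) := by push_cast; ring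
    have e2 : c + c * k = c * ((k + 1 : ℕ) : ℤ) := by push_cast; ring
    rw [e1] at hd
    rw [e2] at ht
    exact ⟨h.tensor_mem _ _ hE a, hd, fun h0 => hE0 (isZero_of_tensor h hN a b e h0), ht.1, ht.2⟩

/-- a tensor t-structure for which Chow motives with realisations in one degree are concentrated in
one degree has a slope. -/
theorem exists_slope (h : MT.Setup R s 𝒞 F) (hN : NumericalZero R s 𝒞) {t : TStructure T}
    (hten : MT.TensorExact t) (ht : PureConcentrated R s 𝒞 t) {E : T} (hE : 𝒞 E)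
    (hE1 : MT.InDeg R s 1 E) (hE0 : ¬ IsZero E) : ∃ c : ℤ, Stretched R s 𝒞 c t := by
  have i₀ : I := Classical.arbitrary I
  obtain ⟨hT0, -⟩ := idem_of_scalar R F h.scalar i₀ (h.unit_ne i₀)
  have h1 : ¬ IsZero (𝟙_ T) := fun h => hT0 ((IsZero.iff_id_eq_zero _).1 h)
  obtain ⟨a, ha1, ha2⟩ := ht (𝟙_ T) 0 h.one_mem (inDeg_unit h)
  have hu := shift_heart ha1 ha2
  have hu2 : t.IsLE (𝟙_ T) (a + a) ∧ t.IsGE (𝟙_ T) (a + a) := by
    obtain ⟨b1, b2⟩ := tensor_degree hten hu hu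
    exact ⟨t.isLE_of_iso (λ_ (𝟙_ T)) _, t.isGE_of_iso (λ_ (𝟙_ T)) _⟩
  have ha : a = 0 := by
    have := heart_unique h1 hu hu2
    omega
  subst ha
  obtain ⟨c, hc1, hc2⟩ := ht E 1 hE hE1
  have hc := shift_heart hc1 hc2
  refine ⟨c, fun X d hX hd => ?_⟩
  by_cases hX0 : IsZero X
  · have hz : IsZero (X⟦c * d⟧) := (shiftFunctor T (c * d)).map_isZero hX0
    exact ⟨(t.isLE_of_isZero hz 0).le, (t.isGE_of_isZero hz 0).ge⟩
  · obtain ⟨n, hn1, hn2⟩ := ht X d hX hd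
    have hn := shift_heart hn1 hn2
    have key : n = c * d := by
      rcases le_or_gt 0 d with h0 | h0
      · obtain ⟨k, rfl⟩ := Int.eq_ofNat_of_zero_le h0
        obtain ⟨b1, b2, b3, b4⟩ := tpow_degree h hN hten hu h1 hE hE1 hE0 hc k
        exact degree_eq h ht hX b1 hd b2 hX0 b3 hn b4
      · obtain ⟨k, hk⟩ := Int.eq_ofNat_of_zero_le (a := -d) (by omega)
        obtain ⟨b1, b2, b3, b4⟩ := tpow_degree h hN hten hu h1 hE hE1 hE0 hc k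
        have hd' := inDeg_tensor h hd b2
        have e1 : d + (k : ℤ) = 0 := by
          rw [← hk]
          ring
        rw [e1] at hd'
        have hz : ¬ IsZero (X ⊗ tpow E k) := fun hz => hX0 (isZero_of_tensor h hN b1 b2 b3 hz)
        have := degree_eq h ht (h.tensor_mem _ _ hX b1) h.one_mem hd' (inDeg_unit h) hz h1
          (tensor_degree hten hn b4) hu
        have e2 : (k : ℤ) = -d := hk.symm
        rw [e2] at this
        linarith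
    rw [← key]
    exact ⟨hn1, hn2⟩

/-- the slope is positive if there are nonzero morphisms `1 ⟶ L⟦-1⟧`, `L` in degree `-2`. -/
theorem slope_pos (h : MT.Setup R s 𝒞 F) {t : TStructure T} {c : ℤ} (ht : Stretched R s 𝒞 c t)
    {L : T} (hL : 𝒞 L) (hLd : MT.InDeg R s (-2) L) {f : 𝟙_ T ⟶ L⟦(-1 : ℤ)⟧} (hf : f ≠ 0) :
    1 ≤ c := by
  by_contra hc
  apply hf
  obtain ⟨-, h2⟩ := isLE_of_stretched ht hL hLd
  obtain ⟨h3, -⟩ := isLE_of_stretched ht h.one_mem (inDeg_unit h)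
  rw [mul_zero] at h3
  have h4 : t.IsGE (L⟦(-1 : ℤ)⟧) (c * -2 + 1) := t.isGE_shift L (c * -2) (-1) _ (by ring)
  exact t.zero f 0 (c * -2 + 1) (by omega)

end Pool.Agent.H937.PT
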