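import Pool.Agent.H937.Slope

/-!
# Weight-stretched t-structures : the main results
-/

set_option linter.unusedSectionVars false
set_option linter.style.haveILetI false

open CategoryTheory Limits MonoidalCategory Triangulated Pretriangulated ZeroObject

namespace Pool.Agent.H937.PT

open Pool.Agent.W492.TS Pool.Agent.W492.PC
open Pool.Agent.W492

universe v u v' u' w

section defs
variable {T : Type u} [Category.{v} T] [HasZeroObject T] [HasShift T ℤ] [Preadditive T]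
  [∀ n : ℤ, (shiftFunctor T n).Additive] [Pretriangulated T]
  [MonoidalCategory T]
  {I : Type w} {D : I → Type u'} [∀ i, Category.{v'} (D i)] [∀ i, HasZeroObject (D i)]
  [∀ i, HasShift (D i) ℤ] [∀ i, Preadditive (D i)]
  [∀ i, ∀ n : ℤ, (shiftFunctor (D i) n).Additive] [∀ i, Pretriangulated (D i)]
  (R : ∀ i, T ⥤ D i) (s : ∀ i, TStructure (D i)) (𝒞 : ObjectProperty T)

/-- Vanishing of slope `c` : for a Chow motive `X` with realisations in degree `d`,
`Hom(1, X[m]) = 0` for all `m ≤ c * d`, except for `d = m = 0`. -/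
def Vanishing (c : ℤ) : Prop :=
  ∀ (X : T) (d : ℤ), 𝒞 X → MT.InDeg R s d X → ∀ m : ℤ, m ≤ c * d → (d ≠ 0 ∨ m ≠ 0) →
    ∀ f : 𝟙_ T ⟶ X⟦m⟧, f = 0

/-- The boundary vanishing of slope `c` : `Hom(1, X[c * d + 1]) = 0` for Chow motives `X` with
realisations in a negative degree `d`. -/
def Boundary (c : ℤ) : Prop :=
  ∀ (X : T) (d : ℤ), 𝒞 X → MT.InDeg R s d X → d < 0 → ∀ f : 𝟙_ T ⟶ X⟦c * d + 1⟧, f = 0

/-- A nonzero morphism `g : X ⟶ 1` from a Chow motive with realisations in degree `0` is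
numerically nontrivial. -/
def NumericalZero : Prop :=
  ∀ X : T, 𝒞 X → MT.InDeg R s 0 X → ∀ g : X ⟶ 𝟙_ T, g ≠ 0 → ∃ x : 𝟙_ T ⟶ X, x ≫ g ≠ 0

/-- `X[c * d]` lies in the heart of `t` for every Chow motive `X` with realisations in
degree `d`. -/
def Stretched (c : ℤ) (t : TStructure T) : Prop :=
  ∀ (X : T) (d : ℤ), 𝒞 X → MT.InDeg R s d X → t.le 0 (X⟦c * d⟧) ∧ t.ge 0 (X⟦c * d⟧)

end defs

/-- Every morphism `f` between objects of the heart of `t` has an `h` with `f ≫ h ≫ f = f`. -/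
def SemisimpleHeart {T : Type u} [Category.{v} T] [HasZeroObject T] [HasShift T ℤ] [Preadditive T]
    [∀ n : ℤ, (shiftFunctor T n).Additive] [Pretriangulated T] (t : TStructure T) : Prop :=
  ∀ X Y : T, t.le 0 X → t.ge 0 X → t.le 0 Y → t.ge 0 Y → ∀ f : X ⟶ Y, ∃ h : Y ⟶ X,
    f ≫ h ≫ f = f

variable {T : Type u} [Category.{v} T] [HasZeroObject T] [HasShift T ℤ] [Preadditive T]
  [∀ n : ℤ, (shiftFunctor T n).Additive] [Pretriangulated T] [IsTriangulated T]
  [IsIdempotentComplete T]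
  [MonoidalCategory T] [SymmetricCategory T] [RightRigidCategory T]
  [∀ X : T, (tensorLeft X).CommShift ℤ] [∀ X : T, (tensorLeft X).IsTriangulated]
  [MonoidalPreadditive T]
  {I : Type w} [Nonempty I] {D : I → Type u'} [∀ i, Category.{v'} (D i)]
  [∀ i, HasZeroObject (D i)]
  [∀ i, HasShift (D i) ℤ] [∀ i, Preadditive (D i)]
  [∀ i, ∀ n : ℤ, (shiftFunctor (D i) n).Additive] [∀ i, Pretriangulated (D i)]
  [∀ i, IsTriangulated (D i)] [∀ i, MonoidalCategory (D i)] [∀ i, MonoidalPreadditive (D i)]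
  {R : ∀ i, T ⥤ D i} [∀ i, (R i).CommShift ℤ] [∀ i, (R i).IsTriangulated]
  [∀ i, (R i).Monoidal] {s : ∀ i, TStructure (D i)}
  {F : Type} [Field F] [CharZero F] [Linear F T] [MonoidalLinear F T]
  {𝒞 : ObjectProperty T}

theorem inDeg_unit (h : MT.Setup R s 𝒞 F) : MT.InDeg R s 0 (𝟙_ T) :=
  ⟨fun i => ((s i).le 0).prop_of_iso (Functor.Monoidal.εIso (R i)) (h.unit_simple i).1,
    fun i => ((s i).ge 0).prop_of_iso (Functor.Monoidal.εIso (R i)) (h.unit_simple i).2.1⟩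

theorem hom_unit_shift {X : T} {m : ℤ} (h : ∀ f : (𝟙_ T)⟦-m⟧ ⟶ X, f = 0) (f : 𝟙_ T ⟶ X⟦m⟧) :
    f = 0 := by
  apply (shiftFunctor T (-m)).map_injective
  rw [Functor.map_zero]
  exact hom_zero_iso' (Iso.refl _) (((shiftEquiv T m).unitIso).app X) h _

/-- a motivic t-structure gives the vanishing of slope `1`. -/
theorem vanishing_one (h : MT.Setup R s 𝒞 F) (hL : MT.Lefschetz R s 𝒞) :
    (∃ t : TStructure T, MT.NonDegenerate t ∧ MT.TensorExact t ∧ ∀ i, MT.TExact t (s i) (R i)) ↔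
      MT.Kunneth R s 𝒞 ∧ NumericalZero R s 𝒞 ∧ Vanishing R s 𝒞 1 := by
  have hC := chow_of_setup h
  refine ((general_criterion h hL).out 0 1).trans ⟨?_, ?_⟩
  · rintro ⟨hK, h2⟩
    have hb : RatEqNum R s 𝒞 := fun X d hX => (h2 X d hX.1 hX.2).2
    refine ⟨hK, fun X hX h0 g hg => ?_, fun X d hX hd m hm hne => ?_⟩
    · let e : X⟦(0 : ℤ)⟧ ≅ X := (shiftFunctorZero T ℤ).app X
      obtain ⟨x, hx⟩ := (h2 X 0 hX h0).2 (e.hom ≫ g) (fun h => hg (by
        rw [← cancel_epi e.hom, h, comp_zero]))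
      exact ⟨x ≫ e.hom, by rwa [Category.assoc]⟩
    · rcases lt_or_eq_of_le hm with hm | hm
      · exact (h2 X d hX hd).1 m (by linarith)
      · have hmd : m = d := by linarith
        subst hmd
        have hm0 : m ≠ 0 := by tauto
        refine hom_unit_shift ?_
        have h3 := fun f => hom_zero_of_ne hC h.tensorExact hb (P := 𝟙_ T) (Q := X) (d := 0)
          (e := m) ⟨hC.unit, inDeg_unit h⟩ ⟨hX, hd⟩ hm0.symm f
        rw [zero_sub] at h3
        exact h3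
  · rintro ⟨hK, hN, hV⟩
    refine ⟨hK, fun X d hX hd => ⟨fun m hm => hV X d hX hd m (by linarith) (by omega), ?_⟩⟩
    intro g hg
    rcases lt_trichotomy d 0 with h0 | h0 | h0
    · exact absurd (hom_zero_of_neg hC hX h0 g) hg
    · subst h0
      let e : X⟦(0 : ℤ)⟧ ≅ X := (shiftFunctorZero T ℤ).app X
      obtain ⟨x, hx⟩ := hN X hX hd (e.inv ≫ g) (fun h => hg (by
        rw [← cancel_epi e.inv, h, comp_zero]))
      exact ⟨x ≫ e.inv, by rwa [Category.assoc]⟩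
    · exfalso
      apply hg
      have h1 : ∀ f : X ⟶ (𝟙_ T)⟦-d⟧, f = 0 := by
        refine hom_zero_of_dual ?_
        refine hom_zero_iso' (Iso.refl _)
          (((tensorLeft (Xᘁ)).commShiftIso (-d)).app (𝟙_ T)).symm ?_
        have h2 := pureAt_dual_tensor hC h.tensorExact (P := X) (Q := 𝟙_ T) ⟨hX, hd⟩
          ⟨hC.unit, inDeg_unit h⟩
        exact hV _ _ h2.1 h2.2 (-d) (by linarith) (Or.inl (by omega))
      exact hom_zero_iso' (Iso.refl _) ((shiftFunctorZero T ℤ).app _ ≪≫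
        (shiftFunctorZero T ℤ).app _) (hom_zero_shift d 0 0 (-d) (by ring) h1) g

theorem vanishing_succ (h : MT.Setup R s 𝒞 F) {c : ℤ} (hc : 0 ≤ c) (hV : Vanishing R s 𝒞 c) :
    Vanishing R s 𝒞 (c + 1) := by
  intro X d hX hd m hm hne
  by_cases h0 : 0 < m
  · exact h.orth _ _ h.one_mem hX m h0
  · refine hV X d hX hd m ?_ hne
    rcases lt_trichotomy d 0 with h1 | h1 | h1
    · linarith
    · subst h1
      omega
    · have := mul_nonneg hc h1.le
      omega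

theorem boundary_succ {c : ℤ} (hV : Vanishing R s 𝒞 c) : Boundary R s 𝒞 (c + 1) := by
  intro X d hX hd h0
  exact hV X d hX hd _ (by linarith) (Or.inl h0.ne)

theorem stretched_heart {t : TStructure T} {c : ℤ} (ht : Stretched R s 𝒞 c t) :
    ∀ w X, CW R s 𝒞 c w X → t.le 0 X ∧ t.ge 0 X := by
  intro w X hX
  obtain ⟨e⟩ := cw_iso c (w := w) X
  obtain ⟨h1, h2⟩ := ht _ w hX.1 hX.2
  exact ⟨(t.le 0).prop_of_iso e.symm h1, (t.ge 0).prop_of_iso e.symm h2⟩

theorem psys_of (h : MT.Setup R s 𝒞 F) {c : ℤ} (hK : MT.Kunneth R s 𝒞)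
    (hN : NumericalZero R s 𝒞) (hV : Vanishing R s 𝒞 c) : PSys (CW R s 𝒞 c) :=
  cw_psys (chow_of_setup h) F h.scalar h.tensorExact hK (fun X hX => hN X hX.1 hX.2)
    (fun X d hX => hV X d hX.1 hX.2)

/-- the stretched t-structure. -/
theorem exists_stretched (h : MT.Setup R s 𝒞 F) {c : ℤ} (hK : MT.Kunneth R s 𝒞)
    (hN : NumericalZero R s 𝒞) (hV : Vanishing R s 𝒞 c) :
    ∃ t : TStructure T, Stretched R s 𝒞 c t ∧ MT.NonDegenerate t ∧ MT.Bounded t ∧
      MT.TensorExact t ∧ ∀ t' : TStructure T, Stretched R s 𝒞 c t' → t' = t := by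
  have hP := psys_of h hK hN hV
  refine ⟨pureT hP, fun X d hX hd => ?_, pureT_nonDegenerate hP, pureT_bounded hP,
    pureT_tensorExact hP (cw_tensor (chow_of_setup h) h.tensorExact c), fun t' ht' => ?_⟩
  · exact pureT_heart hP (cw_of_pureAt (chow_of_setup h) c ⟨hX, hd⟩)
  · exact pureT_unique hP (stretched_heart ht')

theorem isLE_of_stretched {t : TStructure T} {c : ℤ} (ht : Stretched R s 𝒞 c t) {X : T} {d : ℤ}
    (hX : 𝒞 X) (hd : MT.InDeg R s d X) : t.IsLE X (c * d) ∧ t.IsGE X (c * d) := by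
  obtain ⟨h1, h2⟩ := ht X d hX hd
  have h3 : t.IsLE (X⟦c * d⟧) 0 := ⟨h1⟩
  have h4 : t.IsGE (X⟦c * d⟧) 0 := ⟨h2⟩
  exact ⟨t.isLE_of_shift X (c * d) (c * d) 0, t.isGE_of_shift X (c * d) (c * d) 0⟩

/-- the criterion for the stretched t-structure with a semisimple heart. -/
theorem semisimple_iff (h : MT.Setup R s 𝒞 F) {c : ℤ} (hc : 1 ≤ c) (hK : MT.Kunneth R s 𝒞) :
    (∃ t : TStructure T, Stretched R s 𝒞 c t ∧ SemisimpleHeart t) ↔
      NumericalZero R s 𝒞 ∧ Vanishing R s 𝒞 c ∧ Boundary R s 𝒞 c := by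
  have hC := chow_of_setup h
  constructor
  · rintro ⟨t, ht, hss⟩
    obtain ⟨hu1, hu2⟩ := isLE_of_stretched ht h.one_mem (inDeg_unit h)
    rw [mul_zero] at hu1 hu2
    refine ⟨fun X hX hd g hg => ?_, fun X d hX hd m hm hne f => ?_, fun X d hX hd h0 f => ?_⟩
    · obtain ⟨h1, h2⟩ := isLE_of_stretched ht hX hd
      rw [mul_zero] at h1 h2
      obtain ⟨x, hx⟩ := hss X (𝟙_ T) h1.le h2.ge hu1.le hu2.ge g
      exact ⟨x, fun h0 => hg (by rw [← hx, h0, comp_zero])⟩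
    · obtain ⟨h1, h2⟩ := isLE_of_stretched ht hX hd
      rcases lt_or_eq_of_le hm with hm | hm
      · have h3 : t.IsGE (X⟦m⟧) (c * d - m) := t.isGE_shift X (c * d) m (c * d - m) (by ring)
        exact t.zero f 0 (c * d - m) (by omega)
      · subst hm
        rcases lt_trichotomy d 0 with h0 | h0 | h0
        · have h3 : t.IsLE (X⟦c * d⟧) 0 := t.isLE_shift X (c * d) (c * d) 0
          have h4 : t.IsGE (X⟦c * d⟧) 0 := t.isGE_shift X (c * d) (c * d) 0
          obtain ⟨y, hy⟩ := hss (𝟙_ T) (X⟦c * d⟧) hu1.le hu2.ge h3.le h4.ge f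
          have h5 : ∀ y : X⟦c * d⟧ ⟶ 𝟙_ T, y = 0 :=
            hom_zero_iso' (Iso.refl _) ((shiftFunctorZero T ℤ).app _ ≪≫
              (shiftFunctorZero T ℤ).app _) (hom_zero_shift (c * d) 0 0 (-(c * d)) (by ring)
                (h.orth _ _ hX h.one_mem _ (by nlinarith)))
          rw [← hy, h5 y, zero_comp, comp_zero]
        · subst h0
          exact absurd rfl (hne.resolve_right (fun h => h (mul_zero c)))
        · exact h.orth _ _ h.one_mem hX _ (by nlinarith) f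
    · obtain ⟨h1, h2⟩ := isLE_of_stretched ht hX hd
      have h3 : t.IsLE (X⟦c * d⟧) 0 := t.isLE_shift X (c * d) (c * d) 0
      have h4 : t.IsGE (X⟦c * d⟧) 0 := t.isGE_shift X (c * d) (c * d) 0
      -- the extension `X⟦c * d⟧ → E → 1`
      let e : X⟦c * d + 1⟧ ≅ X⟦c * d⟧⟦(1 : ℤ)⟧ := (shiftIso X (c * d) 1 (c * d + 1) rfl).symm
      obtain ⟨E, a, b, hT⟩ := distinguished_cocone_triangle₂ (f ≫ e.hom)
      have hE1 : t.IsLE E 0 := t.isLE₂ _ hT 0 h3 hu1
      have hE2 : t.IsGE E 0 := t.isGE₂ _ hT 0 h4 hu2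
      obtain ⟨k, hk⟩ := hss (X⟦c * d⟧) E h3.le h4.ge hE1.le hE2.ge a
      have h5 : (𝟙 _ - a ≫ k) ≫ a = 0 := by
        rw [Preadditive.sub_comp, Category.id_comp, Category.assoc, hk, sub_self]
      obtain ⟨z, hz⟩ := Triangle.coyoneda_exact₂ _ (inv_rot_of_distTriang _ hT)
        (𝟙 _ - a ≫ k) h5
      have h6 : t.IsGE ((𝟙_ T)⟦(-1 : ℤ)⟧) 1 := t.isGE_shift _ 0 (-1) 1
      have h7 : z = 0 := t.zero_of_isLE_of_isGE z 0 1 (by norm_num) h3 h6
      have h8 : a ≫ k = 𝟙 _ := by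
        rw [h7, zero_comp] at hz
        exact (sub_eq_zero.1 (show (𝟙 (X⟦c * d⟧) - a ≫ k : X⟦c * d⟧ ⟶ X⟦c * d⟧) = 0 from hz)).symm
      have h9 : (f ≫ e.hom) ≫ a⟦(1 : ℤ)⟧' = 0 := comp_distTriang_mor_zero₃₁ _ hT
      have h10 : (f ≫ e.hom) ≫ (a ≫ k)⟦(1 : ℤ)⟧' = 0 := by
        rw [Functor.map_comp, ← Category.assoc, h9, zero_comp]
      rw [h8, CategoryTheory.Functor.map_id, Category.comp_id] at h10
      rw [← cancel_mono e.hom, h10, zero_comp]
  · rintro ⟨hN, hV, hB⟩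
    have hP := psys_of h hK hN hV
    refine ⟨pureT hP, fun X d hX hd => pureT_heart hP (cw_of_pureAt hC c ⟨hX, hd⟩),
      fun X Y h1 h2 h3 h4 => ?_⟩
    refine hP.reg_heart ?_ h1 h2 h3 h4
    intro v w X Y hX hY
    refine hom_zero_cw hC h.tensorExact c (fun Z hZ => ?_) hX hY
    rcases lt_or_ge (-v + w) 0 with h0 | h0
    · exact hB Z _ hZ.1 hZ.2 h0
    · exact h.orth _ _ h.one_mem hZ.1 _ (by nlinarith)

/-- stretched t-structures of different slopes differ. -/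
theorem slope_unique {L : T} {d : ℤ} (hL : 𝒞 L) (hLd : MT.InDeg R s d L) (hd : d ≠ 0)
    (hL0 : ¬ IsZero L) {c c' : ℤ} {t : TStructure T} (h1 : Stretched R s 𝒞 c t)
    (h2 : Stretched R s 𝒞 c' t) : c = c' := by
  by_contra hne
  apply hL0
  have key : ∀ c c' : ℤ, c * d < c' * d → Stretched R s 𝒞 c t → Stretched R s 𝒞 c' t →
      IsZero L := by
    intro c c' hlt h1 h2
    obtain ⟨a, -⟩ := isLE_of_stretched h1 hL hLd
    obtain ⟨-, b⟩ := isLE_of_stretched h2 hL hLd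
    exact t.isZero L (c * d) (c' * d) hlt
  have hne' : c * d ≠ c' * d := fun h => hne (mul_right_cancel₀ hd h)
  rcases lt_or_gt_of_ne hne' with h | h
  · exact key _ _ h h1 h2
  · exact key _ _ h h2 h1

theorem exact_iff (h : MT.Setup R s 𝒞 F) (hLef : MT.Lefschetz R s 𝒞) {L : T} {d : ℤ} (hL : 𝒞 L)
    (hLd : MT.InDeg R s d L) (hd : d ≠ 0) (hL0 : ¬ IsZero L) {c : ℤ} (hK : MT.Kunneth R s 𝒞)
    (hN : NumericalZero R s 𝒞) (hV : Vanishing R s 𝒞 c) {t : TStructure T}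
    (ht : Stretched R s 𝒞 c t) (i : I) : MT.TExact t (s i) (R i) ↔ c = 1 := by
  constructor
  · intro hex
    by_contra hne
    apply hL0
    refine not_isZero_map (chow_of_setup h) F h.scalar h.unit_ne h.tensorExact
      (fun X hX => hN X hX.1 hX.2) (d := d) ⟨hL, hLd⟩ i ?_
    obtain ⟨a, b⟩ := isLE_of_stretched ht hL hLd
    have a1 : (s i).IsLE ((R i).obj L) (c * d) := ⟨(hex _ _).1 a.le⟩
    have b1 : (s i).IsGE ((R i).obj L) (c * d) := ⟨(hex _ _).2 b.ge⟩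
    have a2 : (s i).IsLE ((R i).obj L) d := ⟨hLd.1 i⟩
    have b2 : (s i).IsGE ((R i).obj L) d := ⟨hLd.2 i⟩
    have hne' : c * d ≠ d := fun h => hne (mul_right_cancel₀ hd (by rw [h, one_mul]))
    rcases lt_or_gt_of_ne hne' with h | h
    · exact (s i).isZero _ (c * d) d h
    · exact (s i).isZero _ d (c * d) h
  · intro hc
    subst hc
    obtain ⟨t₀, h1, h2, h3⟩ := (vanishing_one h hLef).2 ⟨hK, hN, hV⟩
    obtain ⟨-, hone'⟩ := idem_of_scalar R F h.scalar i (h.unit_ne i)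
    have hm : Motivic R s t₀ := ⟨h1, TensorExact.heart h2, h3⟩
    have hi := hm.isZero hone' h.unit_ne i
    have hst : Stretched R s 𝒞 1 t₀ := by
      intro X d hX hd
      have h4 : RDeg R s 0 (X⟦1 * d⟧) := RDeg.shift (by ring) hd
      exact ⟨(hm.le_iff i hi 0 _).2 (h4.1 i), (hm.ge_iff i hi 0 _).2 (h4.2 i)⟩
    obtain ⟨t₁, -, -, -, -, huniq⟩ := exists_stretched h hK hN hV
    rw [huniq t ht, ← huniq t₀ hst]
    exact h3 i

end Pool.Agent.H937.PT
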